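import Pool.Agent.KT3.StmtsM

/-!
# KT3 squad (MP_e54c4c_gt), THEOREM T3: SECTION C (closing) and the assembly

The rows RET XPL ZLK EPP EPQ FIN are stated for every number `k + 1 ≥ 3` of vertices (`Fin (k + 1)`, moving
vertex `0`) and every mixing class `MC`; only REG and the last rows use triangles.  For the tools see the header
of `StmtsA.lean` and the rows there (FAY PHE PHU PHC UNI are for every `K`).  `±x ≤ y` means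
`y - x ∈ closure C ∧ y + x ∈ closure C`.
-/

set_option autoImplicit false

open Matrix Filter Topology

namespace Pool.Agent.KT3

open Pool.Agent.PFS Pool.Agent.PFJ Pool.Agent.NBT

/-- a mixing class: a closed invariant family of top simplices with mixing at the vertex `0` -/
structure MC {n k : ℕ} (C : Set (V n)) (Γ : Subgroup (GL (Fin n) ℝ))
    (T : (Fin (k + 1) → V n) → Prop) : Prop where
  ne : ∃ w, T w
  pes : ∀ w, T w → IsPES C Γ w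
  inv : ∀ w, T w → ∀ g ∈ Γ, ∀ s : ℝ, 0 < s → T (fun i => s • act g (w i))
  scl : ∀ w, T w → ∀ r : Fin (k + 1) → ℝ, (∀ i, 0 < r i) → T (fun i => r i • w i)
  cld : ∀ (x : ℕ → Fin (k + 1) → V n) (w : Fin (k + 1) → V n), (∀ m, T (x m)) →
    (∀ i, Tendsto (fun m => x m i) atTop (𝓝 (w i))) → ∑ i, w i ∈ C → T w
  mix : ∀ w : Fin (k + 1) → V n, ∑ i, w i ∈ C → ∃ ε : ℝ, 0 < ε ∧
    ∀ x z : Fin (k + 1) → V n, T x → T z → (∀ i, ‖x i - w i‖ < ε ∧ ‖z i - w i‖ < ε) →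
      T (Function.update x 0 (z 0))

/-- an almost periodic simplex with a fixed first vertex, exponents `a` -/
structure RG {n k : ℕ} (C : Set (V n)) (Γ : Subgroup (GL (Fin n) ℝ))
    (T : (Fin (k + 1) → V n) → Prop) (a : Fin (k + 1) → ℝ) (ε σ : ℝ)
    (w z : Fin (k + 1) → V n) (g : GL (Fin n) ℝ) (s lam : ℝ) : Prop where
  tw : T w
  gm : g ∈ Γ
  s0 : 0 < s
  l1 : 1 / 2 ≤ lam
  l2 : lam ≤ 2
  e0 : s • act g (w 0) = (Real.exp (a 0 * σ) * lam) • w 0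
  ei : ∀ i, i ≠ 0 → s • act g (w i) = Real.exp (a i * σ) • z i
  nr : ∀ i, i ≠ 0 → z i ∈ closure C ∧ ε • (∑ j, w j) - (z i - w i) ∈ closure C ∧
    ε • (∑ j, w j) + (z i - w i) ∈ closure C

/-- the same, with an invariant box `L` of the other vertices -/
structure LG {n k : ℕ} (C : Set (V n)) (Γ : Subgroup (GL (Fin n) ℝ))
    (T : (Fin (k + 1) → V n) → Prop) (a : Fin (k + 1) → ℝ) (ε σ : ℝ)
    (w z : Fin (k + 1) → V n) (L : Submodule ℝ (V n)) (g : GL (Fin n) ℝ) (s lam : ℝ) : Prop where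
  tw : T w
  gm : g ∈ Γ
  s0 : 0 < s
  l1 : 1 / 2 ≤ lam
  l2 : lam ≤ 2
  box : IB C w ({0}ᶜ : Finset (Fin (k + 1))) L
  inv : img g L = L
  e0 : s • act g (w 0) = (Real.exp (a 0 * σ) * lam) • w 0
  ei : ∀ i, i ≠ 0 → s • act g (w i) = Real.exp (a i * σ) • z i
  nr : ∀ i, i ≠ 0 → z i ∈ L ∧ z i ∈ closure C ∧
    ε • fS w ({0}ᶜ : Finset (Fin (k + 1))) - (z i - w i) ∈ closure C ∧
    ε • fS w ({0}ᶜ : Finset (Fin (k + 1))) + (z i - w i) ∈ closure C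

/-- **Row ATT** (attracting vectors; pure order geometry).

Proof.  `R = 10 ε ≤ 1/10`.  `X` = all `x ∈ L` with `φ x = 1`, `±(x - a) ≤ R f`; `a ∈ X`.  For `x ∈ X`, `e = x - a`: `φ e = 0`, so
`±H e ≤ (R/100) f`; `c = φ (H x) = φ (H a) + φ (H e)`, `|φ (H a) - 1| ≤ ε` (apply `φ` to `±(H a - a) ≤ ε f`), `|φ (H e)| ≤ R/100`,
so `|c - 1| ≤ 1.1 ε ≤ 0.011`.  `H x - c a = (H a - a) + H e + (1 - c) a`, `±` it `≤ (ε + 0.1 ε + 1.1 ε) f` (`a ≤ f`), so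
`x' = c⁻¹ H x` satisfies `±(x' - a) ≤ 3 ε f`: `x' ∈ X`.
Contraction: `x, y ∈ X`, `±(x - y) ≤ r f`: `±H (x - y) ≤ (r/100) f`, `|c_x - c_y| ≤ r/100`,
`x' - y' = c_x⁻¹ H (x - y) + ((c_y - c_x)/c_x) y'`, `±y' ≤ (1 + R) f`, so `±(x' - y') ≤ (r/2) f`.
`ξ 0 = a`, `ξ (j+1) = ξ_j'`: `±(ξ (j+1) - ξ j) ≤ 2^{-j} R f`; `±u ≤ r f` gives `‖u‖ ≤ (2 B + 1) r ‖f‖` (`normal`), so `ξ` is a
Cauchy sequence (`cauchySeq_of_le_geometric`); limit `x ∈ L` (closed).  `H` is continuous: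
`c_j → φ (H x) =: lam ∈ [1/2, 2]`, `H (ξ j) = c_j ξ (j+1)` gives `H x = lam x`. -/
def AttStmt : Prop :=
  ∀ (n : ℕ) (C : Set (V n)), PCone C → ∀ (L : Submodule ℝ (V n)) (f a : V n)
    (φ : V n →ₗ[ℝ] ℝ) (H : V n →ₗ[ℝ] V n) (ε : ℝ), 0 < ε → ε ≤ 1 / 100 →
    f ∈ L → f ∈ closure C → a ∈ L → a ∈ closure C → f - a ∈ closure C →
    (∀ x ∈ closure C, 0 ≤ φ x) → φ a = 1 → φ f = 1 →
    (∀ x ∈ L, H x ∈ L) → (∀ x ∈ closure C, H x ∈ closure C) →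
    ε • f - (H a - a) ∈ closure C → ε • f + (H a - a) ∈ closure C →
    (∀ e ∈ L, ∀ r : ℝ, 0 ≤ r → φ e = 0 → r • f - e ∈ closure C → r • f + e ∈ closure C →
      (r / 100) • f - H e ∈ closure C ∧ (r / 100) • f + H e ∈ closure C) →
    ∃ (ξ : ℕ → V n) (x : V n) (lam : ℝ), ξ 0 = a ∧
      (∀ j, 0 < φ (H (ξ j)) ∧ ξ (j + 1) = (φ (H (ξ j)))⁻¹ • H (ξ j)) ∧
      (∀ j, ξ j ∈ L ∧ φ (ξ j) = 1 ∧ (10 * ε) • f - (ξ j - a) ∈ closure C ∧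
        (10 * ε) • f + (ξ j - a) ∈ closure C) ∧
      Tendsto ξ atTop (𝓝 x) ∧ 1 / 2 ≤ lam ∧ lam ≤ 2 ∧ H x = lam • x

/-- **Row RET** (near returns of a closed invariant class; uses nothing but ZOM, LPS).

Proof.  `T w0`; `y_m = (exp (-(a i * m^2)) • w0 i)_i ∈ T` (`scl`).  `∑ y_m ∈ C ∩ Hull` (ELM); ZOM, LPS (`2 ≤ k + 1`):
`G_m y_{θ m} → W`, `θ` strictly monotone, `G_m = s_m act g_m`, `∑ W ∈ C`, so `T W` (`cld`).  `u_m = G_m y_{θ m} ∈ T` (`inv`).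
Given `ε, S` choose `m` large with `u_m, u_{m+1}` within `ε` of `W` and `2 θ m + 1 ≥ S`; `w = u_m`, `z = u_{m+1}`,
`g = g_{m+1} g_m⁻¹`, `s = s_{m+1} / s_m`, `σ = (θ (m+1))^2 - (θ m)^2 ≥ 2 θ m + 1`; `s • act g (w i) =
s_{m+1} exp (-(a i (θ m)^2)) act g_{m+1} (w0 i) = exp (a i σ) z i`. -/
def RetStmt : Prop :=
  ∀ (n k : ℕ) (C : Set (V n)) (Γ : Subgroup (GL (Fin n) ℝ)), HK C Γ (k + 1) →
    ∀ T : (Fin (k + 1) → V n) → Prop, MC C Γ T → ∀ a : Fin (k + 1) → ℝ,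
    ∃ W : Fin (k + 1) → V n, T W ∧ ∀ ε S : ℝ, 0 < ε →
      ∃ (w z : Fin (k + 1) → V n) (g : GL (Fin n) ℝ) (s σ : ℝ), T w ∧ T z ∧
        (∀ i, ‖w i - W i‖ < ε ∧ ‖z i - W i‖ < ε) ∧ g ∈ Γ ∧ 0 < s ∧ S ≤ σ ∧
        ∀ i, s • act g (w i) = Real.exp (a i * σ) • z i

/-- **Row XPL** (closing at the vertex `0`; uses PHE UNI ATT RET).

Proof.  UNI with `τ = 1/400`: `κ`.  RET: `W`; `mix` at `W`: `ε₁`.  `g₀ = min_{i ≠ 0} (a 0 - a i) > 0`.  For `δ > 0` there is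
`η > 0` such that `‖u‖ < η` implies `±u ≤ δ f(W)` (`f(W) = ∑ W ∈ C`: `(k+1)`-fold open ball argument); so if `w, z` are
within a small `η'` of `W`: `±(z i - w i) ≤ 3 δ f(w)` for all `i` (`±(f(w) - f(W)) ≤ δ' f(W)`).  Take `δ ≤ ε/16`, `δ ≤ 1/300` and so small that
`±u ≤ 60 δ f(W)` implies `‖u‖ < ε₁/2` (`normal`); `w, z, g, s, σ` from RET with `η' ≤ ε₁/2` and `S' ≥ S` large.
`H = exp (-(a 0 σ)) • s • act g` (linear): `H w0 = z0`, `H w_i = exp (-((a 0 - a i) σ)) z_i`.  `φ` (PHE) for `w`, `i = 0`;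
`f = f(w)`.  ATT with `L = ⊤`, `a = w0`, `3 δ` for `ε`: for `φ e = 0`, `±e ≤ r f`: UNI: `±e ≤ r (κ ∑_{i≠0} w_i + τ f)`; apply `H`
and `z_i ≤ (1 + 3 δ) f`: `±H e ≤ r (k κ exp (-g₀ σ) (1 + 3δ) + τ (1 + 3 δ) (1 + k exp (-g₀ σ))) f ≤ (r/100) f` for large `σ`.
ATT: `ξ, x, lam`, `H x = lam x`, `±(ξ j - w0) ≤ 30 δ f`.
Claim: `T (update w 0 (ξ j))` for all `j`.  `j = 0`: `w`.  Step: apply `s • act g` (`inv`) and rescale (`scl`): the vertex `0` by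
`exp (-(a 0 σ)) (φ (H (ξ j)))⁻¹`, the vertex `i` by `exp (-(a i σ))`: `T (update z 0 (ξ (j+1)))`; this tuple is within `ε₁`
of `W` (`‖ξ (j+1) - w0‖ < ε₁/2`), so `mix` for `w` and it gives `T (update w 0 (ξ (j+1)))`.
Limit: `x + ∑_{i≠0} w_i ≥ (1 - 30 δ) f ∈ C`, `cld`: `T (update w 0 x)`.  `w⁺ = update w 0 x`, `z`, `g, s, σ, lam`: `e0`: `s act g x =
exp (a 0 σ) H x`; `nr`: `f ≤ (1 - 30 δ)⁻¹ f(w⁺)`, `±(z_i - w_i) ≤ 3 δ f ≤ ε f(w⁺)`. -/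
def XplStmt : Prop :=
  ∀ (n k : ℕ) (C : Set (V n)) (Γ : Subgroup (GL (Fin n) ℝ)), HK C Γ (k + 1) →
    ∀ T : (Fin (k + 1) → V n) → Prop, MC C Γ T → ∀ a : Fin (k + 1) → ℝ,
    (∀ i, i ≠ 0 → a i < a 0) → ∀ ε S : ℝ, 0 < ε →
      ∃ (w z : Fin (k + 1) → V n) (g : GL (Fin n) ℝ) (s σ lam : ℝ), S ≤ σ ∧
        RG C Γ T a ε σ w z g s lam

/-- **Row ZLK** (zoom at the fixed vertex).

Proof.  `f_m = exp m • w0 + ∑_{i≠0} w_i`; ZOM, LPS: `G_m (exp (θ m) w0, w_1, …) → W` (subsequence), `T W` (`scl`, `inv`, `cld`).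
`G_m` is bounded on vectors (absorb `±x ≤ M ∑ w ≤ M f_{θ m}`), so on a subsequence `G_m x → P x`, `P` linear; `P w0 = 0`,
`P w_i = W_i` (`i ≠ 0`), `P x ∈ closure C` for `x ∈ closure C`.
`h = s • act g`; `γ_m = g_m g g_m⁻¹ ∈ Γ`, `h_m = s • act γ_m = G_m h G_m⁻¹`.  `h f_m ≤ M f_m` and `f_m ≤ M h f_m` with `M`
independent of `m`: `h f_m = exp (m + a 0 σ) lam w0 + ∑_{i≠0} h w_i`, absorb `h w_i ≤ M' ∑ w ≤ M' f_m`; the same for `h⁻¹`.  So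
`h_m (G_m f_{θ m})` is comparable with `G_m f_{θ m} → ∑ W ∈ C`, uniformly; CMC, CMF, PRP (as in the row FMS, `Helper32_NBT/FMS.lean`): `γ_m`
takes finitely many values for large `m`, so on a subsequence `γ_m = g'` is constant (`∈ Γ`).  `P (h x) = h' (P x)`,
`h' = s • act g'`.  `h' W0 = lim G_m h (exp (θ m) w0) = exp (a 0 σ) lam W0`.  `L = range P`: `img g' L = L` (`h' P x = P h x`, and
`h' ⁻¹ P x = P h⁻¹ x`).  `z'_i = P z_i`: `h' W_i = P (h w_i) = exp (a i σ) z'_i`; `ε P(∑ w) ± (z'_i - W_i) ∈ closure C` and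
`P (∑ w) = fS W {0}ᶜ`.  Box: `W_i ∈ L` (`i ≠ 0`); `u = P x ∈ L`, `u + W0 ∈ closure C` (`fS W ({0}ᶜ)ᶜ = W 0`); `η > 0`:
`u + W0 + η ∑ W ∈ C`, so for large `m` `x + exp (θ m) w0 + η f_{θ m} ∈ closure C`; apply `P` (`P w0 = 0`):
`u + η fS W {0}ᶜ ∈ closure C`; `η → 0`. -/
def ZlkStmt : Prop :=
  ∀ (n k : ℕ) (C : Set (V n)) (Γ : Subgroup (GL (Fin n) ℝ)), HK C Γ (k + 1) →
    ∀ T : (Fin (k + 1) → V n) → Prop, MC C Γ T → ∀ (a : Fin (k + 1) → ℝ) (ε σ : ℝ)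
      (w z : Fin (k + 1) → V n) (g : GL (Fin n) ℝ) (s lam : ℝ), RG C Γ T a ε σ w z g s lam →
    ∃ (w' z' : Fin (k + 1) → V n) (L : Submodule ℝ (V n)) (g' : GL (Fin n) ℝ),
      LG C Γ T a ε σ w' z' L g' s lam

/-- **Row EPP** (the top eigenvector in the box; uses PHE UNI ATT).

Proof.  UNI with `τ = 1/400`: `κ`; `ε₀ = 1/300`; `g₀ = min_{i ≠ 0, i1} (a i1 - a i) > 0` (`1` if there is no such `i`).
`f = fS w {0}ᶜ = ∑_{i≠0} w_i`, `φ` (PHE) for `i1`: `φ f = 1`.  `H = exp (-(a i1 σ)) • s • act g` maps `L` to `L` (`inv`);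
`H w_{i1} = z_{i1}`, `H w_i = exp (-((a i1 - a i) σ)) z_i`.  ATT with `L`, `f`, `a = w_{i1}`, `ε₀` (as `ε ≤ ε₀`): for `e ∈ L`, `φ e = 0`,
`±e ≤ r f ≤ r ∑ w`: UNI: `±e ≤ r (κ ∑_{i≠i1} w_i + τ ∑ w)`, i.e. `(r κ ∑_{i≠0,i1} w_i + r τ f ± e) + r (κ + τ) w0 ∈ closure C`, the
bracket is in `L`; the box property (IBF 3 for the box `L`): `±e ≤ r (κ ∑_{i≠0,i1} w_i + τ f)`; apply `H`, `z_i ≤ (1 + ε) f`:
`±H e ≤ (r/100) f` for `σ ≥ S₀`.  ATT: `x ∈ L`, `H x = lam' x`, `±(x - w_{i1}) ≤ 10 ε₀ f ≤ (1/4) f` (limit of the `ξ j`), `x ∈ closure C` (limit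
of positive multiples of `H^j w_{i1}`); `μ = exp (a i1 σ) lam'`. -/
def EppStmt : Prop :=
  ∀ (n k : ℕ) (C : Set (V n)) (Γ : Subgroup (GL (Fin n) ℝ)), HK C Γ (k + 1) →
    ∀ T : (Fin (k + 1) → V n) → Prop, MC C Γ T → ∀ (a : Fin (k + 1) → ℝ) (i1 : Fin (k + 1)),
    i1 ≠ 0 → (∀ i, i ≠ 0 → i ≠ i1 → a i < a i1) → ∃ ε₀ S₀ : ℝ, 0 < ε₀ ∧
    ∀ (ε σ : ℝ) (w z : Fin (k + 1) → V n) (L : Submodule ℝ (V n)) (g : GL (Fin n) ℝ)
      (s lam : ℝ), ε ≤ ε₀ → S₀ ≤ σ → LG C Γ T a ε σ w z L g s lam →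
      ∃ (x : V n) (μ : ℝ), x ∈ L ∧ x ∈ closure C ∧ s • act g x = μ • x ∧
        Real.exp (a i1 * σ) / 2 ≤ μ ∧ μ ≤ 2 * Real.exp (a i1 * σ) ∧
        (1 / 4 : ℝ) • fS w ({0}ᶜ : Finset (Fin (k + 1))) - (x - w i1) ∈ closure C ∧
        (1 / 4 : ℝ) • fS w ({0}ᶜ : Finset (Fin (k + 1))) + (x - w i1) ∈ closure C

/-- **Row EPQ** (the bottom eigenvector in the box; uses PHE UNI ATT).

Proof.  UNI with `τ = 1/800`: `κ`.  `f = ∑_{i≠0} w_i`, `φ` (PHE) for `i1`, `H = exp (a i1 σ) • (s • act g)⁻¹` (that is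
`(exp (a i1 σ) / s) • act g⁻¹`): `H z_i = exp (-((a i - a i1) σ)) w_i`, `H z_{i1} = w_{i1}`.  Put `f_z = ∑_{i≠0} z_i`:
`±(f - f_z) ≤ k ε f`, so `f ≤ 2 f_z` and `H f ≤ 2 H f_z ≤ 2 (w_{i1} + exp (-g₀ σ) ∑_{i≠0,i1} w_i) ≤ 2 f`.
`±(H w_{i1} - w_{i1}) = ±H (w_{i1} - z_{i1}) ≤ ε H f ≤ 2 ε f`.  For `i ≠ 0, i1`: `H w_i ≤ H z_i + ε H f ≤ (exp (-g₀ σ) + 2 ε) f`.
So for `e ∈ L`, `φ e = 0`, `±e ≤ r f`: as in EPP `±e ≤ r (κ ∑_{i≠0,i1} w_i + τ f)` and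
`±H e ≤ r (k κ (exp (-g₀ σ) + 2 ε) + 2 τ) f ≤ (r/100) f` for `ε ≤ ε₀` (small depending on `κ, k`), `σ ≥ S₀`.  ATT (with
`2 ε₀` for `ε`, `20 ε₀ ≤ 1/4`); `H x = lam' x`, so `s act g x = exp (a i1 σ) lam'⁻¹ x`. -/
def EpqStmt : Prop :=
  ∀ (n k : ℕ) (C : Set (V n)) (Γ : Subgroup (GL (Fin n) ℝ)), HK C Γ (k + 1) →
    ∀ T : (Fin (k + 1) → V n) → Prop, MC C Γ T → ∀ (a : Fin (k + 1) → ℝ) (i1 : Fin (k + 1)),
    i1 ≠ 0 → (∀ i, i ≠ 0 → i ≠ i1 → a i1 < a i) → ∃ ε₀ S₀ : ℝ, 0 < ε₀ ∧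
    ∀ (ε σ : ℝ) (w z : Fin (k + 1) → V n) (L : Submodule ℝ (V n)) (g : GL (Fin n) ℝ)
      (s lam : ℝ), ε ≤ ε₀ → S₀ ≤ σ → LG C Γ T a ε σ w z L g s lam →
      ∃ (x : V n) (μ : ℝ), x ∈ L ∧ x ∈ closure C ∧ s • act g x = μ • x ∧
        Real.exp (a i1 * σ) / 2 ≤ μ ∧ μ ≤ 2 * Real.exp (a i1 * σ) ∧
        (1 / 4 : ℝ) • fS w ({0}ᶜ : Finset (Fin (k + 1))) - (x - w i1) ∈ closure C ∧
        (1 / 4 : ℝ) • fS w ({0}ᶜ : Finset (Fin (k + 1))) + (x - w i1) ∈ closure C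

/-- **Row EVN** (eigenvectors with different eigenvalues in an invariant subspace are nonunits).

Proof.  `h = s • act g`, `h x = μ x`, `h y = ν y`, `0 < ν < μ`, `x, y ≠ 0` in `L ∩ closure C`.  If `x` is a unit of `L`:
`M x - y ∈ closure C`, apply `h^{-j}`: `M μ^{-j} x - ν^{-j} y ∈ closure C`, so `M (ν/μ)^j x - y ∈ closure C`; `j → ∞`:
`-y ∈ closure C`, `y = 0`, contradiction.  If `y` is a unit: `M y - x ∈ closure C`, apply `h^j`: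
`M (ν/μ)^j y - x ∈ closure C`, the same.  `Ind2`: `α x + β y = 0`, apply `h`: `α μ x + β ν y = 0`, so `α (μ - ν) x = 0`. -/
def EvnStmt : Prop :=
  ∀ (n : ℕ) (C : Set (V n)) (Γ : Subgroup (GL (Fin n) ℝ)), CC C Γ → ∀ g ∈ Γ, ∀ (s : ℝ)
    (L : Submodule ℝ (V n)) (x y : V n) (μ ν : ℝ), 0 < s → x ∈ L → y ∈ L → x ∈ closure C →
    y ∈ closure C → x ≠ 0 → y ≠ 0 → s • act g x = μ • x → s • act g y = ν • y → 0 < ν → ν < μ →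
    ¬ Unt C L x ∧ ¬ Unt C L y ∧ Ind2 x y

/-- **Row REG** (a regular element for triangles; uses STX XPL ZLK EPP EPQ EVN).

Proof.  `k = 2`, `a = ![2, 1, 0]`.  EPP for `i1 = 1`, EPQ for `i1 = 2`: `ε₀`, `S₀` (both).  XPL with `ε = min`, `S = max S₀ 2`, ZLK:
`LG`: `w, z, L, g, s, σ ≥ 2`.  `x` near `w 1` with eigenvalue `μ ∈ [exp σ / 2, 2 exp σ]`, `y` near `w 2` with `ν ∈ [1/2, 2]`:
`ν < μ`.  `x ≠ 0`: otherwise `(1/4) (w1 + w2) - w1 ∈ closure C`.. (`x - w 1 = -w 1`, `(1/4) fS - w1 ∈ closure C`), contradicts NNG; the same for `y`.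
EVN: nonunits, `Ind2`.  `{0}ᶜ = {1, 2}`; STX (1) for `i = 1, j = 2`: `w' = update (update w 1 x) 2 y` is `IsPES`.  Eigenvalues of `s act g`: `exp (2σ) lam` with `lam ∈ [1/2, 2]`, `μ`, `ν`:
`exp (2σ)/2 > 2 exp σ` and `exp σ / 2 > 2` for `σ ≥ 2` (`exp 1 > 2`, `exp σ ≥ exp 2 > 4`).  `l i` = eigenvalue divided by `s`. -/
def RegStmt : Prop :=
  ∀ (n : ℕ) (C : Set (V n)) (Γ : Subgroup (GL (Fin n) ℝ)), HK C Γ 3 →
    ∀ T : (Fin 3 → V n) → Prop, MC (k := 2) C Γ T →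
    ∃ w : Fin 3 → V n, IsPES C Γ w ∧ ∃ g ∈ Γ, ∃ l : Fin 3 → ℝ, Function.Injective l ∧
      ∀ i, act g (w i) = l i • w i

/-- **Row FIN** (a top simplex fixed by an element with distinct eigenvalues; uses the landed rows of NBT: FMS
TBE CLS RGA COC PZB, see `Pool/Agent/Helper13_NBT/Main.lean` for their proofs and `BTF.lean` for the pattern).

Proof.  `q = 1`, `α = ![g]`, `lam = fun _ => l`.  FMS: `FAM C Γ (Cen Γ α) (FxF C Γ α lam)`; `w` is a member.  TBE with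
`c0 = 0` (box: the span of the vertices, IBF): `T, c` with `TB C Γ (Cen Γ α) T c`, `Mnl`, members in `FxF`.  CLS: `Arr C T k r`
implies `l k = l r`, so `k = r`; but `Sx` contains `r ≠ k` (first component of `Sx`); so there are no arrows.  RGA:
every set `S` is `Rig` (otherwise an arrow).  `Pot C T c (fun i => (i : ℝ)) ε` with `ε` the minimum of the `ε`'s of the
finitely many sets `upp a s` (`Nr` for the smaller `ε`: `Nr C ε w z` implies `Nr C ε' w z` for `ε ≤ ε'`, add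
`(ε' - ε) ∑ w`); `two`, `lev3`: `a` is injective.  COC: `ZoE`; PZB: `Concl C Γ k w'` for any member `w'` of `T`. -/
def FinStmt : Prop :=
  ∀ (n : ℕ) (C : Set (V n)) (Γ : Subgroup (GL (Fin n) ℝ)) (k : ℕ), HK C Γ (k + 1) →
    ∀ w : Fin (k + 1) → V n, IsPES C Γ w → ∀ g ∈ Γ, ∀ l : Fin (k + 1) → ℝ,
    Function.Injective l → (∀ i, act g (w i) = l i • w i) →
    ∃ w' : Fin (k + 1) → V n, IsPES C Γ w' ∧ Concl C Γ k w'

/-- **Row AMC** (the class `AN` is a mixing class; uses ANE ANI ANC LMN MIX).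

Proof.  `T w := ∃ N, AN C Γ d q w N`.  `ne`: LMN and ANE.  `pes`: `AN.wl.pes`.  `inv`, `scl`: ANI.  `cld`: ANC.  `mix`: MIX. -/
def AmcStmt : Prop :=
  ∀ (n : ℕ) (C : Set (V n)) (Γ : Subgroup (GL (Fin n) ℝ)) (d q : ℕ), H3 C Γ d → 2 ≤ q →
    (∃ w, AD C Γ d q w) → (¬ ∃ w, AD C Γ d (q + 1) w) →
    MC (k := 2) C Γ (fun w : Fin 3 → V n => ∃ N : Submodule ℝ (V n), AN C Γ d q w N)

/-- **Row T3F** (Theorem T3; uses WIE ADI AMC REG FIN and the landed BTF of NBT, DMC is not needed).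

Proof.  `HK C Γ 3`.  `d` = the largest `finrank (BI C w I01)` of all top triangles (bounded by `n`; `Nat.findGreatest` or
`Nat.sSup_mem`).  If `d ≤ 2`: `NoBT C Γ 3`: for a box triangle the `{i, j}`-box `L` has `finrank L ≥ 3`, `L ≤ BI C w {i, j}` (IBF 2),
and reindexing the vertices (ELM 3, a permutation with `0 ↦ i`, `1 ↦ j`) gives a top triangle with
`finrank (BI C w' I01) ≥ 3`; so BTF (`k = 2`) gives the result.  If `d ≥ 3`: `H3 C Γ d`; WIE: a wall; ADI (1): a member of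
`AD C Γ d 2`.  `q` = the largest `δ` such that `AD C Γ d δ` has a member: it exists, since `δ ≤ n` for a member (the leaf
contains `w 0`, `δ ≤ finrank L ≤ n`); `q ≥ 2` and `AD C Γ d (q + 1)` has no member.  AMC, REG, FIN. -/
def T3fStmt : Prop :=
  ∀ (n : ℕ) (C : Set (V n)) (Γ : Subgroup (GL (Fin n) ℝ)), CC C Γ → MaxCard C Γ 3 →
    (∃ w : Fin 3 → V n, IsPES C Γ w) → ∃ w : Fin 3 → V n, IsPES C Γ w ∧ Concl C Γ 2 w

end Pool.Agent.KT3
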