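import Pool.Agent.NBT.StmtsA

/-!
# KT3 squad (MP_e54c4c_gt), THEOREM T3: definitions

THEOREM T3.  Let `Γ` act convex cocompactly on the domain of the cone `C ⊆ ℝ^n` and suppose that the
largest properly embedded simplices with vertices in the limit set are TRIANGLES (`K = 3`).  Then some
such triangle is a maximal properly embedded simplex preserved by a subgroup of `Γ` isomorphic to
`ℤ^2`.  No condition on `n` or on the faces.  Paper proof: note 3696 (table notes, MP_e54c4c_gt).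

Conventions.  `x ≤ y` means `y - x ∈ closure C`; `±x ≤ y` means `y - x, y + x ∈ closure C`.
`G = s • act g` scaled group element.  `f = ∑ w`, `f_I = fS w I`, `BI C w I` = span of the open face of `f_I`,
`IB C w I L`: `L` is an `I`-box of `w`.  For triangles `w : Fin 3 → V n`: `w 0` is the moving vertex,
`F = BI C w {0, 1}` the wall, `up w x` the triangle with `w 0` replaced by `x`, `Lf C w` the leaf (the boundary
of the cone of `F` without the ray of `w 1`), `φ` with `Ph C w 0 φ` the support functional which is `1` at `w 0`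
and `0` at `w 1`, `w 2`.
-/

set_option autoImplicit false

open Matrix Filter Topology

namespace Pool.Agent.KT3

open Pool.Agent.PFS Pool.Agent.PFJ Pool.Agent.NBT

variable {n K : ℕ}

/-- the standing hypotheses: `K` is the largest number of vertices -/
structure HK (C : Set (V n)) (Γ : Subgroup (GL (Fin n) ℝ)) (K : ℕ) : Prop extends CC C Γ where
  three : 3 ≤ K
  maxc : MaxCard C Γ K

/-- `d` bounds the dimensions of the spans of the open faces `BI C w I` of all top simplices -/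
structure HI (C : Set (V n)) (Γ : Subgroup (GL (Fin n) ℝ)) (K : ℕ) (I : Finset (Fin K))
    (d : ℕ) : Prop extends HK C Γ K where
  maxd : ∀ w : Fin K → V n, IsPES C Γ w → Module.finrank ℝ (BI C w I) ≤ d

/-- `φ` is the support functional of the vertex `i` of `w` -/
structure Ph (C : Set (V n)) (w : Fin K → V n) (i : Fin K) (φ : V n →ₗ[ℝ] ℝ) : Prop where
  pos : ∀ x ∈ closure C, 0 ≤ φ x
  one : φ (w i) = 1
  zero : ∀ j, j ≠ i → φ (w j) = 0

/-- the face `I` of the top simplex `w` is a box of the dimension `d` (wall) -/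
structure WI (C : Set (V n)) (Γ : Subgroup (GL (Fin n) ℝ)) (I : Finset (Fin K)) (d : ℕ)
    (w : Fin K → V n) : Prop where
  pes : IsPES C Γ w
  dim : Module.finrank ℝ (BI C w I) = d
  box : IB C w I (BI C w I)

/-- the wall index set of triangles -/
abbrev I01 : Finset (Fin 3) := {0, 1}

/-- the index set of the second pair -/
abbrev I02 : Finset (Fin 3) := {0, 2}

/-- the standing hypotheses for triangles: `d ≥ 3` is the largest dimension of a face of an edge -/
structure H3 (C : Set (V n)) (Γ : Subgroup (GL (Fin n) ℝ)) (d : ℕ) : Prop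
    extends HI C Γ 3 I01 d where
  d3 : 3 ≤ d

/-- the triangle `w` with the moving vertex replaced by `x` -/
abbrev up (w : Fin 3 → V n) (x : V n) : Fin 3 → V n := Function.update w 0 x

/-- the leaf of `w`: nonunits of the cone of the wall which are not multiples of `w 1` -/
structure Lf (C : Set (V n)) (w : Fin 3 → V n) (x : V n) : Prop where
  mem : x ∈ BI C w I01
  cl : x ∈ closure C
  non : ¬ Unt C (BI C w I01) x
  ne : ∀ c : ℝ, x ≠ c • w 1

/-- every triangle in the leaf of `w` has a `{0, 2}`-box of dimension at least `δ` -/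
structure AD (C : Set (V n)) (Γ : Subgroup (GL (Fin n) ℝ)) (d δ : ℕ) (w : Fin 3 → V n) : Prop where
  wl : WI C Γ I01 d w
  bx : ∀ x, Lf C w x → ∃ L : Submodule ℝ (V n), IB C (up w x) I02 L ∧ δ ≤ Module.finrank ℝ L

/-- `x` has an approximate `{0, 2}`-box of dimension `δ` (accuracy `ε`, size `M`, scale `exp (-T)`) -/
def Zp (C : Set (V n)) (w : Fin 3 → V n) (δ : ℕ) (ε M T : ℝ) (x : V n) : Prop :=
  ∃ L : Submodule ℝ (V n), Module.finrank ℝ L = δ ∧ x ∈ L ∧ w 2 ∈ L ∧
    ∀ u ∈ L, u + Real.exp (-T) • w 1 ∈ closure C →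
      M • (x + w 2 + Real.exp (-T) • w 1) - u ∈ closure C → u + ε • (x + w 2) ∈ closure C

/-- the triangle `w` with the vertex `1` multiplied by `exp t` -/
noncomputable def at1 (w : Fin 3 → V n) (t : ℝ) : Fin 3 → V n :=
  Function.update w 1 (Real.exp t • w 1)

/-- a closed family of walls, invariant under the scaled group, the scaling of the vertex `1` and the
normalised leaf moves -/
structure LS (C : Set (V n)) (Γ : Subgroup (GL (Fin n) ℝ)) (d : ℕ)
    (X : (Fin 3 → V n) → Prop) : Prop where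
  wl : ∀ w, X w → WI C Γ I01 d w
  inv : ∀ w, X w → ∀ g ∈ Γ, ∀ s : ℝ, 0 < s → X (fun i => s • act g (w i))
  scl : ∀ w, X w → ∀ t : ℝ, X (at1 w t)
  lf : ∀ w, X w → ∀ φ : V n →ₗ[ℝ] ℝ, Ph C w 0 φ → ∀ x, Lf C w x → φ x = 1 → X (up w x)
  cld : ∀ (x : ℕ → Fin 3 → V n) (w : Fin 3 → V n), (∀ m, X (x m)) →
    (∀ i, Tendsto (fun m => x m i) atTop (𝓝 (w i))) → ∑ i, w i ∈ C → X w

/-- a minimal such family -/
structure LM (C : Set (V n)) (Γ : Subgroup (GL (Fin n) ℝ)) (d : ℕ)
    (X : (Fin 3 → V n) → Prop) : Prop extends LS C Γ d X where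
  ne : ∃ w, X w
  min : ∀ X' : (Fin 3 → V n) → Prop, LS C Γ d X' → (∀ w, X' w → X w) → (∃ w, X' w) →
    ∀ w, X w → X' w

/-- `p` is a positive projection with kernel `N` which fixes `x` and `v` -/
structure PJ (C : Set (V n)) (N : Submodule ℝ (V n)) (x v : V n) (p : V n →ₗ[ℝ] V n) : Prop where
  idm : ∀ y, p (p y) = p y
  pos : ∀ y ∈ closure C, p y ∈ closure C
  ker : ∀ y, p y = 0 ↔ y ∈ N
  fx : p x = x
  fv : p v = v

/-- the class of walls with a common kernel `N` of codimension `q` of the second pair -/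
structure AN (C : Set (V n)) (Γ : Subgroup (GL (Fin n) ℝ)) (d q : ℕ) (w : Fin 3 → V n)
    (N : Submodule ℝ (V n)) : Prop where
  wl : WI C Γ I01 d w
  cod : Module.finrank ℝ N + q = n
  mem : w 1 ∈ N
  prj : ∀ x, Lf C w x → ∃ p : V n →ₗ[ℝ] V n, PJ C N x (w 2) p

/-- the choice of a partner `x0` of `z` in the orbit of `w 0` -/
structure CH (C : Set (V n)) (w : Fin 3 → V n) (N : Submodule ℝ (V n)) (φ : V n →ₗ[ℝ] ℝ)
    (pr p : V n →ₗ[ℝ] V n) (z x x0 : V n) (b b' : ℝ) : Prop where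
  lf : Lf C w x
  pj : PJ C N x (w 2) p
  b0 : 0 ≤ b
  b0' : 0 ≤ b'
  prz : pr z = x + b • w 1
  pz : p z = x0 + b' • w 2
  px0 : p x0 = x0
  prx0 : pr x0 = x
  cl : x0 ∈ closure C
  fx : φ x = φ z
  fx0 : φ x0 = φ z

/-- a limit pair: two triangles of the class with the same `w 1`, `w 2` -/
structure PR (C : Set (V n)) (Γ : Subgroup (GL (Fin n) ℝ)) (d q : ℕ) (w : Fin 3 → V n)
    (N : Submodule ℝ (V n)) (y : V n) (b b' : ℝ) : Prop where
  an : AN C Γ d q w N
  an' : ∃ N' : Submodule ℝ (V n), AN C Γ d q (up w y) N'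
  ne : y ≠ w 0
  b0 : 0 ≤ b
  b0' : 0 ≤ b'
  pr : Pool.Agent.PCO.Sml C (w 2) (y - w 0 - b • w 1)
  pn : y - w 0 - b' • w 2 ∈ N

/-- an almost periodic triangle with a fixed first vertex -/
structure RT (C : Set (V n)) (Γ : Subgroup (GL (Fin n) ℝ)) (ε σ : ℝ) (w z : Fin 3 → V n)
    (g : GL (Fin n) ℝ) (s lam : ℝ) : Prop where
  pes : IsPES C Γ w
  gm : g ∈ Γ
  s0 : 0 < s
  l1 : 1 / 2 ≤ lam
  l2 : lam ≤ 2
  e0 : s • act g (w 0) = (Real.exp (2 * σ) * lam) • w 0
  e1 : s • act g (w 1) = Real.exp σ • z 1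
  e2 : s • act g (w 2) = z 2
  nr : ∀ i, i ≠ 0 → z i ∈ closure C ∧ ε • (∑ j, w j) - (z i - w i) ∈ closure C ∧
    ε • (∑ j, w j) + (z i - w i) ∈ closure C

/-- the same, with an invariant box `L` of the other two vertices -/
structure LK (C : Set (V n)) (Γ : Subgroup (GL (Fin n) ℝ)) (ε σ : ℝ) (w z : Fin 3 → V n)
    (L : Submodule ℝ (V n)) (g : GL (Fin n) ℝ) (s lam : ℝ) : Prop where
  pes : IsPES C Γ w
  gm : g ∈ Γ
  s0 : 0 < s
  l1 : 1 / 2 ≤ lam
  l2 : lam ≤ 2
  box : IB C w {1, 2} L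
  inv : img g L = L
  e0 : s • act g (w 0) = (Real.exp (2 * σ) * lam) • w 0
  e1 : s • act g (w 1) = Real.exp σ • z 1
  e2 : s • act g (w 2) = z 2
  nr : ∀ i, i ≠ 0 → z i ∈ L ∧ z i ∈ closure C ∧ ε • (w 1 + w 2) - (z i - w i) ∈ closure C ∧
    ε • (w 1 + w 2) + (z i - w i) ∈ closure C

end Pool.Agent.KT3
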