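import Pool.Agent.KT3.Defs

/-!
# KT3 squad (MP_e54c4c_gt), THEOREM T3: SECTIONS A (walls, support functionals) and B (leaves)

PROVED THEOREMS, to be used WITHOUT hypotheses (imported, namespace `Pool.Agent.NBT`): `nng` (nonnegative
coefficients), `exv` (vertices of top simplices are extreme), `fcs` (faces and spans), `uop` (units are interior),
`pbf`, `bxt` (pair boxes of dimension at least three are strictly convex), the small lemmas `fce unt_two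
absorb_two cl_of_eps ind2_of_ne fS_cl fS_add_compl fS_pair fS_update`; the landed rows of NBT on boxes:
`Pool/Agent/Helper13_NBT/IBF.lean` (IBF), `Helper64_NBT/IBI.lean` (IBI), `Helper28_NBT/IBL.lean` (IBL),
`Helper52_NBT/IZF.lean` (IZF) (import them); the rows of PFS and PFJ: `Pool.Agent.PFS.H60.zom elm lin crt fun_`,
`H37.cloF : CloStmt`, `H37.flmF : FlmStmt`, `H37.limF`, `H37.lpsF : LpsStmt`, `CC.hul : HulFacts C Γ`,
`PCone.normal`, `PCone.absorb`, `PCone.squeeze`, `PES.cl`, `PES.sum_mem`, `Pool.Agent.PFJ.H69.lsc : LscStmt`,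
`Pool.Agent.PFJ.H10.lsf : LsfStmt`, `Pool.Agent.PFJ.H32.img : ImgStmt`, `Pool.Agent.PFJ.H76.unf : UnfStmt`,
`Pool.Agent.PFJ.H10.fmx : FmxStmt`.

Models: the rows of NBT for `TB` families (`Helper38_NBT/TBF.lean`, `Helper55_NBT/PJE.lean`, `Helper17_NBT/PJF.lean`,
`Helper55_NBT/BIL.lean`, PJC) have the same proofs; here only the face `I` is a box of the maximal dimension `d`.
Abbreviations in the proofs: `f = ∑ w`, `f_I = fS w I`, `F = BI C w I`, `strict` = sum of two independent elements is a unit.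
-/

set_option autoImplicit false

open Matrix Filter Topology

namespace Pool.Agent.KT3

open Pool.Agent.PFS Pool.Agent.PFJ Pool.Agent.NBT

/-! ## A. Walls and support functionals (any `K`) -/

/-- **Row FAY** (the family of all top simplices).

Proof.  `sub`: `le_refl`.  `inv`, `scl`: ELM (with `s = 1`).  `cld`: `2 ≤ K`: LPS with `p = ∑ w`: a subsequence
tends to an `IsPES` simplex, which is `w` (uniqueness of limits).  `cpt`: `∑ x_m ∈ C ∩ Hull` (`PES.pos`, ELM 4), ZOM. -/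
def FayStmt : Prop :=
  ∀ (n : ℕ) (C : Set (V n)) (Γ : Subgroup (GL (Fin n) ℝ)) (K : ℕ), CC C Γ → 2 ≤ K →
    FAM C Γ Γ (fun w : Fin K → V n => IsPES C Γ w)

/-- **Row WIE** (existence of walls; uses FAY).

Proof.  IZF for the family FAY, `w`, `I`: `w'` with `IB C w' I L`, `finrank L = d`.  `L ≤ BI C w' I` (IBF 2), and
`finrank (BI C w' I) ≤ d` (`maxd`), so `L = BI C w' I` (`Submodule.eq_of_le_of_finrank_le`). -/
def WieStmt : Prop :=
  ∀ (n : ℕ) (C : Set (V n)) (Γ : Subgroup (GL (Fin n) ℝ)) (K : ℕ) (I : Finset (Fin K)) (d : ℕ),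
    HI C Γ K I d → (∃ w : Fin K → V n, IsPES C Γ w ∧ Module.finrank ℝ (BI C w I) = d) →
    ∃ w : Fin K → V n, WI C Γ I d w

/-- **Row WIC** (walls are closed, the subspaces converge; uses FAY).

Proof.  `IsPES C Γ w` by FAY (`cld`).  Every subsequence has a further subsequence with
`LimS (BI C (x_m) I) L'`, `finrank L' = d` (LSC); IBL: `IB C w I L'`; `L' ≤ BI C w I` (IBF 2), `maxd`: equal.  So
`WI` for `w`, and `LimS` for the whole sequence as in BIL, parts (b), (c) (`Helper55_NBT/BIL.lean`). -/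
def WicStmt : Prop :=
  ∀ (n : ℕ) (C : Set (V n)) (Γ : Subgroup (GL (Fin n) ℝ)) (K : ℕ) (I : Finset (Fin K)) (d : ℕ),
    HI C Γ K I d → ∀ (x : ℕ → Fin K → V n) (w : Fin K → V n), (∀ m, WI C Γ I d (x m)) →
    (∀ i, Tendsto (fun m => x m i) atTop (𝓝 (w i))) → ∑ i, w i ∈ C →
    WI C Γ I d w ∧ LimS (fun m => BI C (x m) I) (BI C w I)

/-- **Row WII** (invariance of walls).

Proof.  IBI (1), (2), (3), IBF (4), ELM, IMG (dimension of the image).  The last part: `z_I ∈ B_I`, `±v ≤ M f_I(z)`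
and `f_I(z) ≤ M' f_I(w)`: `BI C z I ≤ BI C w I` (FCE), equal dimensions. -/
def WiiStmt : Prop :=
  ∀ (n : ℕ) (C : Set (V n)) (Γ : Subgroup (GL (Fin n) ℝ)) (K : ℕ) (I : Finset (Fin K)) (d : ℕ),
    HI C Γ K I d → ∀ w : Fin K → V n, WI C Γ I d w →
    (∀ r : Fin K → ℝ, (∀ i, 0 < r i) → WI C Γ I d (fun i => r i • w i) ∧
      BI C (fun i => r i • w i) I = BI C w I) ∧
    (∀ g ∈ Γ, ∀ s : ℝ, 0 < s → WI C Γ I d (fun i => s • act g (w i)) ∧
      BI C (fun i => s • act g (w i)) I = img g (BI C w I)) ∧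
    ∀ z : Fin K → V n, WI C Γ I d z → (∀ i ∈ I, z i ∈ BI C w I) → BI C z I = BI C w I

/-- **Row WIP** (existence of the projection of a wall; uses FAY WIC).  Adapt `Helper55_NBT/PJE.lean` and ZLX.

Proof.  `J = Iᶜ`, `r_m i = exp m` for `i ∈ J`, `1` otherwise, `y_m = r_m w`.  FAY (`cpt`): `G_m ∑ y_{φ m} → p ∈ C`,
`G_m = s_m act g_m`; LPS: on a subsequence `G_m y_{φ m} → W`, `IsPES C Γ W`.  `G_m` is bounded: absorb `±x ≤ M f ≤
M ∑ y_{φ m}`, so `±G_m x ≤ M G_m ∑ y`, bounded (`normal`); on a subsequence `G_m e_j → a_j` for the basis vectors;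
`P` linear with `G_m x → P x`.  `P x ∈ closure C` for `x ∈ closure C`; `P w_i = W_i` (`i ∈ I`), `P w_i = 0` (`i ∉ I`:
`G_m w_i = exp(-φ m) G_m (exp (φ m) w_i)`).  `±P x ≤ M P f = M fS W I`: `P x ∈ BI C W I` (FCE).
Injective on `F`: `y ∈ F`, `P y ∈ closure C` ⇒ `y ∈ closure C`: `ε > 0`: `P y + ε ∑ W ∈ C`, so for large `m`
`G_m (y + ε ∑ y_{φ m}) ∈ C`, `y + ε f_I + ε exp(φ m) f_J ∈ closure C`, IBF (3): `y + ε f_I ∈ closure C`; `ε → 0`.
So `P` is injective on `F` (`±y`, salient), `finrank (BI C W I) ≤ d` (`maxd`), so `P` maps `F` onto `BI C W I`; for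
every `x` there is exactly one `p x ∈ F` with `P (p x) = P x`; `p` is linear, `mem`, `idB` clear, `pos`: `P (p x) =
P x ∈ closure C`.  `ker`: `p x = 0 ↔ P x = 0 ↔ Sml C f_J x` as in PJE. -/
def WipStmt : Prop :=
  ∀ (n : ℕ) (C : Set (V n)) (Γ : Subgroup (GL (Fin n) ℝ)) (K : ℕ) (I : Finset (Fin K)) (d : ℕ),
    HI C Γ K I d → ∀ w : Fin K → V n, WI C Γ I d w → ∃ p : V n →ₗ[ℝ] V n, PrI C w I p

/-- **Row WIF** (facts on the projection of a wall; uses WIP WII).  Adapt `Helper17_NBT/PJF.lean`.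

Proof.  (1) `Sml C f_{Iᶜ} w_m` with `κ = 1`.  (2) `x ∈ C`, `z ∈ F`: absorb `M x - z ∈ C`, apply `p`.  (3) `x - p x` is
in both kernels.  (4) the same `BI` and the same `Sml` (comparable vectors).  (5) `p' (act g x) = act g (p x)` defines
`PrI` for `G w`.  (6) `f_{Iᶜ}` is the same, so the kernels are the same: `x - p' x ∈ ker p' = ker p`; `y ∈ BI C w' I`:
`y - p y ∈ ker p = ker p'`.  (7) `Unt C (BI C w I) (fS w I)` (IBF 1) and `y ∈ closure C`, `M fS w I - y ∈ closure C`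
imply `y ∈ BI C w I` (FCS 2). -/
def WifStmt : Prop :=
  ∀ (n : ℕ) (C : Set (V n)) (Γ : Subgroup (GL (Fin n) ℝ)) (K : ℕ) (I : Finset (Fin K)) (d : ℕ),
    HI C Γ K I d → ∀ w : Fin K → V n, WI C Γ I d w → ∀ p : V n →ₗ[ℝ] V n, PrI C w I p →
    (∀ m, m ∉ I → p (w m) = 0) ∧
    (∀ x ∈ C, Unt C (BI C w I) (p x)) ∧
    (∀ p' : V n →ₗ[ℝ] V n, PrI C w I p' → p' = p) ∧
    (∀ r : Fin K → ℝ, (∀ i, 0 < r i) → PrI C (fun i => r i • w i) I p) ∧
    (∀ g ∈ Γ, ∀ s : ℝ, 0 < s → ∀ p' : V n →ₗ[ℝ] V n, PrI C (fun i => s • act g (w i)) I p' →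
      ∀ x, p' (act g x) = act g (p x)) ∧
    (∀ w' : Fin K → V n, WI C Γ I d w' → (∀ m, m ∉ I → w' m = w m) → ∀ p' : V n →ₗ[ℝ] V n,
      PrI C w' I p' → (∀ x, p (p' x) = p x) ∧ ∀ y ∈ BI C w' I, p' (p y) = y) ∧
    (Unt C (BI C w I) (fS w I) ∧ ∀ y ∈ closure C, ∀ M : ℝ, M • fS w I - y ∈ closure C → y ∈ BI C w I)

/-- **Row WIQ** (continuity of the projections of walls; uses WIC WIF).  Adapt PJC (`StmtsA.lean` of NBT).

Proof.  As PJC: given a subsequence find a further one with `pm → P` (bounded: `±v ≤ M ∑ x_m`, apply `pm`),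
`P y = y` for `y ∈ F(w)` (WIC), `P u = 0` if `p u = 0` (`Sml` with the point `∑ w`, perturb, apply `pm`, limit), so
`P = p`. -/
def WiqStmt : Prop :=
  ∀ (n : ℕ) (C : Set (V n)) (Γ : Subgroup (GL (Fin n) ℝ)) (K : ℕ) (I : Finset (Fin K)) (d : ℕ),
    HI C Γ K I d → ∀ (x : ℕ → Fin K → V n) (w : Fin K → V n), (∀ m, WI C Γ I d (x m)) →
    WI C Γ I d w → (∀ i, Tendsto (fun m => x m i) atTop (𝓝 (w i))) →
    ∀ (pm : ℕ → (V n →ₗ[ℝ] V n)) (p : V n →ₗ[ℝ] V n) (ym : ℕ → V n) (y : V n),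
      (∀ m, PrI C (x m) I (pm m)) → PrI C w I p → Tendsto ym atTop (𝓝 y) →
      Tendsto (fun m => pm m (ym m)) atTop (𝓝 (p y))

/-- **Row PHE** (support functionals; uses FAY WIP).

Proof.  `HI C Γ K {i} 1`: for every top simplex the vertex `w_i` is extreme (`exv`), so `BI C w {i} = span {w_i}`
(every `y ∈ Face C w_i` has `0 ≤ y`, `ε y ≤ w_i`, so `y = c w_i`; `w_i ∈ Face`), dimension `1` (`w_i ≠ 0`, LIN);
`WI C Γ {i} 1 w`: the box property is NNG: `c w_i + f_{Iᶜ} ∈ closure C` ⇒ `c ≥ 0`.  WIP: `p`; `p x = φ x • w_i`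
defines `φ` (linear).  `pos`: `φ x • w_i ∈ closure C` ⇒ `φ x ≥ 0` (salient).  `ker` of `PrI`. -/
def PheStmt : Prop :=
  ∀ (n : ℕ) (C : Set (V n)) (Γ : Subgroup (GL (Fin n) ℝ)) (K : ℕ), HK C Γ K →
    ∀ w : Fin K → V n, IsPES C Γ w → ∀ i, ∃ φ : V n →ₗ[ℝ] ℝ, Ph C w i φ

/-- **Row PHU** (uniqueness and invariance of the support functionals; uses FAY WIP PHE).

Proof.  By the proof of PHE there is one `φ0` with `Ph C w i φ0` and `φ0 u = 0 → Sml C f' u`, `f' = fS w {i}ᶜ`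
(`ker` of `PrI`).  (1) for any `ψ ≥ 0` on `closure C` with `ψ (w_j) = 0` for `j ≠ i`: `Sml C f' u` ⇒ `ψ u = 0`
(`ψ (κ f' + τ f ± u) ≥ 0`: `|ψ u| ≤ τ ψ f` for all `τ > 0`); `u - φ0 u • w_i ∈ ker φ0`, so `ψ u = ψ (w_i) φ0 u`.  In
particular `φ = φ0` for every `Ph` functional, and `ψ = ψ (w_i) • φ`.  (2) `→` from `φ = φ0`, `←` as in (1).
(3), (4): `(r i)⁻¹ • φ` and `φ ∘ G⁻¹` satisfy `Ph`, uniqueness.  (5) `φ (w'_i) > 0`: otherwise `φ` vanishes on all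
`w'_j`, so on `∑ w' ∈ C`, and a functional `≥ 0` on `closure C` which vanishes at a point of `C` is zero (absorb),
but `φ (w_i) = 1`.  Then `(φ (w'_i))⁻¹ • φ` satisfies `Ph` for `w'`. -/
def PhuStmt : Prop :=
  ∀ (n : ℕ) (C : Set (V n)) (Γ : Subgroup (GL (Fin n) ℝ)) (K : ℕ), HK C Γ K →
    ∀ w : Fin K → V n, IsPES C Γ w → ∀ (i : Fin K) (φ : V n →ₗ[ℝ] ℝ), Ph C w i φ →
    (∀ ψ : V n →ₗ[ℝ] ℝ, (∀ x ∈ closure C, 0 ≤ ψ x) → (∀ j, j ≠ i → ψ (w j) = 0) →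
      ∀ x, ψ x = ψ (w i) * φ x) ∧
    (∀ u, φ u = 0 ↔ Pool.Agent.PCO.Sml C (fS w {i}ᶜ) u) ∧
    (∀ r : Fin K → ℝ, (∀ j, 0 < r j) → Ph C (fun j => r j • w j) i ((r i)⁻¹ • φ)) ∧
    (∀ g ∈ Γ, ∀ s : ℝ, 0 < s → ∀ φ' : V n →ₗ[ℝ] ℝ, Ph C (fun j => s • act g (w j)) i φ' →
      ∀ u, φ' (s • act g u) = φ u) ∧
    ∀ w' : Fin K → V n, IsPES C Γ w' → (∀ j, j ≠ i → w' j = w j) →
      0 < φ (w' i) ∧ Ph C w' i ((φ (w' i))⁻¹ • φ)

/-- **Row PHC** (continuity of the support functionals; uses PHU).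

Proof.  `tendsto_of_subseq_tendsto`.  For `e ∈ V` absorb `M f ± e ∈ C` (`f = ∑ w ∈ C`, `PES.sum_mem`), so for large
`m` `M ∑ x_m ± e ∈ closure C` and `|φ_m e| ≤ M φ_m (∑ x_m) = M`.  On a further subsequence `φ_m e_j → a_j` for the
basis vectors, `ψ` linear with `ψ e_j = a_j`, `φ_m z_m → ψ z` if `z_m → z`.  `ψ ≥ 0` on `closure C`, `ψ (w_i) = 1`,
`ψ (w_j) = 0` (limits), so `ψ = φ` by PHU (1). -/
def PhcStmt : Prop :=
  ∀ (n : ℕ) (C : Set (V n)) (Γ : Subgroup (GL (Fin n) ℝ)) (K : ℕ), HK C Γ K →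
    ∀ (x : ℕ → Fin K → V n) (w : Fin K → V n), (∀ m, IsPES C Γ (x m)) → IsPES C Γ w →
    (∀ j, Tendsto (fun m => x m j) atTop (𝓝 (w j))) → ∀ (i : Fin K) (φm : ℕ → (V n →ₗ[ℝ] ℝ))
      (φ : V n →ₗ[ℝ] ℝ) (ym : ℕ → V n) (y : V n), (∀ m, Ph C (x m) i (φm m)) → Ph C w i φ →
      Tendsto ym atTop (𝓝 y) → Tendsto (fun m => φm m (ym m)) atTop (𝓝 (φ y))

/-- **Row UNI** (uniform smallness; uses FAY PHE PHU PHC).

Proof.  Suppose not: `τ > 0` and for every `m ∈ ℕ` `w^m, i_m, φ_m, e_m, r_m` violating the claim for `κ = m + 1`.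
`r_m > 0` (if `r_m = 0` then `±e_m ∈ closure C`, `e_m = 0`, no violation), so we may take `r_m = 1` (divide); `i_m = i`
on a subsequence.  FAY (`cpt`) and LPS: `G_m w^m → w`, `IsPES C Γ w` (subsequence).  `e'_m = G_m e_m`, `±e'_m ≤ G_m f^m`
bounded (`normal`): `e'_m → e`, `±e ≤ f(w)`.  `φ'_m` = the `Ph` functionals of `G_m w^m` (PHE), `φ'_m e'_m = φ_m e_m = 0` (PHU
4), so `φ e = 0` (PHC) and PHU (2): `Sml C f' e`, so with the point `f ∈ C` and `τ/2`: `κ0 f' + (τ/2) f ± e ∈ closure C`,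
and `κ0 f' + τ f ± e ∈ C`; so for large `m` `κ0 fS (G_m w^m) {i}ᶜ + τ G_m f^m ± e'_m ∈ closure C`, apply `G_m⁻¹`;
for `m + 1 ≥ κ0` the claim holds for `w^m`, a contradiction. -/
def UniStmt : Prop :=
  ∀ (n : ℕ) (C : Set (V n)) (Γ : Subgroup (GL (Fin n) ℝ)) (K : ℕ), HK C Γ K →
    ∀ τ : ℝ, 0 < τ → ∃ κ : ℝ, 0 < κ ∧ ∀ w : Fin K → V n, IsPES C Γ w → ∀ (i : Fin K)
      (φ : V n →ₗ[ℝ] ℝ), Ph C w i φ → ∀ (e : V n) (r : ℝ), φ e = 0 → 0 ≤ r →
      r • (∑ j, w j) - e ∈ closure C → r • (∑ j, w j) + e ∈ closure C →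
      r • (κ • fS w {i}ᶜ + τ • ∑ j, w j) - e ∈ closure C ∧
      r • (κ • fS w {i}ᶜ + τ • ∑ j, w j) + e ∈ closure C

/-! ## B. Pair boxes and leaves -/

/-- **Row STX** (pair boxes: sums of independent nonunits, change of the two vertices, extremality).

Proof.  `IB C w {i, j} L` is `PB C w i j L` (`rst w i j = fS w {i, j}ᶜ`).  `L ≤ BI C w {i, j}`, `f_ij` is a unit of `L`
(IBF).  (1) if `finrank L ≥ 3`: BXT.  If `finrank L ≤ 2`: `w_i, w_j ∈ L` are independent (LIN), so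
`L = span {w_i, w_j}`, `x = a w_i + b w_j` with `a, b ≥ 0` (NNG: `x + fS w {i,j}ᶜ ∈ closure C`), not both positive
(a unit otherwise), so `x = a w_i` or `x = b w_j`; the same for `y`; `Ind2` gives (up to order) `x = a w_i`, `y = b w_j`,
`a, b > 0`, and `x + y` is a unit.
(2) `w' = update (update w i x) j y`: `∑ w' ∈ C`: `w_i + w_j ≤ M (x + y)`.  CRT: if the sum without the index `i`
is in `C`: `y + R ∈ C` (`R = fS w {i, j}ᶜ`), absorb `M y + M R - f_ij ∈ closure C`, IBF (3): `M y - f_ij ∈ closure C`,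
so `y` is a unit of `L` (UNF), contradiction; the same for `j`.  Without `l ∉ {i, j}`: `x + y + R - w_l ∈ C` and
`x + y ≤ M (w_i + w_j)` give `w_i + w_j + R - w_l ∈ C` (up to scaling), contradicts `PES.bd`.  `x, y ∈ LamC`: `f_ij ∈ Hull`, `∉ C`
(`K ≥ 3`, `bd`), `≠ 0`, so `f_ij ∈ LamC` (CLO, constant sequence); `x ≤ M f_ij`, `x ≠ 0` (`Ind2`), FLM and scaling.
(3) `x, y ∈ L`; the box property is the same (`fS w' {i, j}ᶜ = fS w {i, j}ᶜ`).
(4) `e` not a unit, `0 ≤ y ≤ M e`; `y ≤ M M' f_ij`.  `IB` for `y`?  Use (2): if `e ≠ 0` is not a multiple of `w_j`, then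
`w' = update (update w i e) j w_j` is `IsPES` (`w_j` is a nonunit by NNG), `e = w'_i` is extreme (`exv`); if `e` is a
multiple of `w_j`: `w_j` is extreme; `e = 0`: `y = 0`. -/
def StxStmt : Prop :=
  ∀ (n : ℕ) (C : Set (V n)) (Γ : Subgroup (GL (Fin n) ℝ)) (K : ℕ), HK C Γ K →
    ∀ w : Fin K → V n, IsPES C Γ w → ∀ i j, i ≠ j → ∀ L : Submodule ℝ (V n), IB C w {i, j} L →
    (∀ x ∈ L, ∀ y ∈ L, x ∈ closure C → y ∈ closure C → Ind2 x y → ¬ Unt C L x → ¬ Unt C L y →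
      Unt C L (x + y) ∧ IsPES C Γ (Function.update (Function.update w i x) j y) ∧
      IB C (Function.update (Function.update w i x) j y) {i, j} L) ∧
    (∀ e ∈ L, e ∈ closure C → ¬ Unt C L e → Ext C e) ∧
    ¬ Unt C L (w i) ∧ ¬ Unt C L (w j)

/-- **Row LFI** (the leaf under scalings and the group; uses WII).

Proof.  `BI C (r w) I01 = BI C w I01`, `BI C (G w) I01 = img g (BI C w I01)` (WII or IBI), `Unt` is
transported by `G` (`CC.sact_cl_iff`). -/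
def LfiStmt : Prop :=
  ∀ (n : ℕ) (C : Set (V n)) (Γ : Subgroup (GL (Fin n) ℝ)) (d : ℕ), H3 C Γ d →
    ∀ w : Fin 3 → V n, WI C Γ I01 d w → ∀ x : V n,
    (∀ r : Fin 3 → ℝ, (∀ i, 0 < r i) → (Lf C (fun i => r i • w i) x ↔ Lf C w x)) ∧
    (∀ g ∈ Γ, ∀ s : ℝ, 0 < s → (Lf C (fun i => s • act g (w i)) (s • act g x) ↔ Lf C w x)) ∧
    ∀ c : ℝ, 0 < c → (Lf C w (c • x) ↔ Lf C w x)

/-- **Row LFM** (moves in the leaf; uses STX PHU).

Proof.  `L = F = BI C w I01`, `finrank F = d ≥ 3`.  `w 0 ∈ F`, nonunit (STX), not a multiple of `w 1` (LIN): `Lf C w (w 0)`.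
`Lf C w x`: `x, w 1` independent (`ind2_of_ne`), nonunits: STX (1): `x + w 1` is a unit of `F`,
`IsPES C Γ (update (update w 0 x) 1 (w 1))` and this tuple is `up w x` (`Function.update_eq_self`), and `F` is a
box of it.  `BI C (up w x) I01 = span (Face (x + w 1)) = F` (FCS 5).  So `Lf C (up w x) y ↔ Lf C w y`.
`Ext C x`: STX.  `φ`: PHU (5). -/
def LfmStmt : Prop :=
  ∀ (n : ℕ) (C : Set (V n)) (Γ : Subgroup (GL (Fin n) ℝ)) (d : ℕ), H3 C Γ d →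
    ∀ w : Fin 3 → V n, WI C Γ I01 d w → Lf C w (w 0) ∧ ∀ x, Lf C w x →
      WI C Γ I01 d (up w x) ∧ BI C (up w x) I01 = BI C w I01 ∧
      (∀ y, Lf C (up w x) y ↔ Lf C w y) ∧ Ext C x ∧ x ∈ LamC C Γ ∧
      Unt C (BI C w I01) (x + w 1) ∧
      ∀ φ : V n →ₗ[ℝ] ℝ, Ph C w 0 φ → 0 < φ x ∧ Ph C (up w x) 0 ((φ x)⁻¹ • φ)

/-- **Row LFS** (the leaf is smooth at `w 1`; uses PHU).

Proof.  PHU (2): `Sml C (w 1 + w 2) u` (`{0}ᶜ = {1, 2}`, `fS_pair`): for every `τ > 0` there is `κ > 0` with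
`κ (w1 + w2) + τ f ± u ∈ closure C`, that is `(κ w1 + τ (w0 + w1) ± u) + (κ + τ) w2 ∈ closure C`, the bracket is in `F`;
IBF (3): `κ w1 + τ (w0 + w1) ± u ∈ closure C`.  For `x ∈ C` and `τ' > 0` choose `τ` with `τ f ≤ τ' x` (absorb). -/
def LfsStmt : Prop :=
  ∀ (n : ℕ) (C : Set (V n)) (Γ : Subgroup (GL (Fin n) ℝ)) (d : ℕ), H3 C Γ d →
    ∀ w : Fin 3 → V n, WI C Γ I01 d w → ∀ φ : V n →ₗ[ℝ] ℝ, Ph C w 0 φ →
    ∀ u ∈ BI C w I01, φ u = 0 → Pool.Agent.PCO.Sml C (w 1) u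

/-- **Row LFT** (threshold; uses LFS STX).

Proof.  `u = a w0 + e`, `a = φ u > 0`, `e ∈ F`, `φ e = 0`.  LFS with `τ`, at the point `f`, and the box property: for some
`κ` `κ w1 + (a/2) (w0 + w1) + e ∈ closure C` (see the proof of LFS; from `Sml`: `κ w1 + τ f + e ∈ closure C` with
`τ = a/2`, IBF (3)); so `u + (κ + a/2) w1 ≥ (a/2) w0`, and `u + (κ + a) w1` is a unit of `F`.  The set of all `t` with
`u + t w1 ∈ closure C` is closed, nonempty, bounded below (if `t_m → -∞`: divide by `|t_m|`: `-w1 ∈ closure C`); let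
`t` be its minimum.  `x = u + t w1` is not a unit (a unit absorbs `-w1`: `M x - w1 ∈ closure C` gives a smaller `t`), and
`x ≠ c w1` as `φ x = a > 0 = φ w1`.  `u ∈ closure C` ⇒ `t ≤ 0`.  Uniqueness: if `Lf C w (u + t' w1)`, then `t' ≥ t`; if
`t' > t`: `u + t' w1 = x + (t' - t) w1` with `x, (t'-t) w1` independent nonunits: a unit (STX), contradiction. -/
def LftStmt : Prop :=
  ∀ (n : ℕ) (C : Set (V n)) (Γ : Subgroup (GL (Fin n) ℝ)) (d : ℕ), H3 C Γ d →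
    ∀ w : Fin 3 → V n, WI C Γ I01 d w → ∀ φ : V n →ₗ[ℝ] ℝ, Ph C w 0 φ →
    ∀ u ∈ BI C w I01, 0 < φ u →
      ∃ t : ℝ, Lf C w (u + t • w 1) ∧ (u ∈ closure C → t ≤ 0) ∧
        ∀ t' : ℝ, Lf C w (u + t' • w 1) → t' = t

/-- **Row LFD** (decomposition of the cone of the wall; uses LFT STX).

Proof.  `φ u > 0`: LFT: `x = u + t w1`, `t ≤ 0`, `s = -t`; `φ x = φ u`.  `φ u = 0`: if `u, w1` are independent and `u` is a
nonunit: `u + w1` is a unit (STX), so `w0 ≤ M (u + w1)`, `1 = φ w0 ≤ 0`; if `u` is a unit: `w0 ≤ M u`, the same.  So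
`u = c w1` (`ind2_of_ne`), `c ≥ 0` (salient). -/
def LfdStmt : Prop :=
  ∀ (n : ℕ) (C : Set (V n)) (Γ : Subgroup (GL (Fin n) ℝ)) (d : ℕ), H3 C Γ d →
    ∀ w : Fin 3 → V n, WI C Γ I01 d w → ∀ φ : V n →ₗ[ℝ] ℝ, Ph C w 0 φ →
    ∀ u ∈ BI C w I01, u ∈ closure C →
      (0 < φ u → ∃ (x : V n) (s : ℝ), 0 ≤ s ∧ Lf C w x ∧ u = x + s • w 1 ∧ φ x = φ u) ∧
      (φ u = 0 → ∃ c : ℝ, 0 ≤ c ∧ u = c • w 1)

/-- **Row LFO** (the projections of two walls with the same `w 1`, `w 2` are order isomorphisms; uses WIF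
PHU LFM).

Proof.  WIF (6) for `w, w'` and for `w', w`: `p (p' x) = p x`, `p' (p y) = y` for `y ∈ F'`, `p (p' y) = y` for `y ∈ F`.
`x' = p' x ∈ F'`, in `closure C`.  If `x'` is a unit of `F'`: for `z ∈ F` `M x' - p' z ∈ closure C`, apply `p`:
`M x - z ∈ closure C`: `x` is a unit, contradiction.  `φ ∘ p' = φ`: `φ ∘ p' ≥ 0`, `φ (p' w1) = φ w1 = 0` (`w1 = w'1 ∈ F'`),
`φ (p' w2) = 0` (WIF 1), so `φ ∘ p' = φ (p' w'0) / φ (w'0) * φ` by PHU (1) for `w'` (`Ph C w' 0 (φ (w'0))⁻¹ • φ`, PHU 5),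
and `p' w'0 = w'0`.  So `φ x' = φ x > 0` and `x' ≠ c w1`. -/
def LfoStmt : Prop :=
  ∀ (n : ℕ) (C : Set (V n)) (Γ : Subgroup (GL (Fin n) ℝ)) (d : ℕ), H3 C Γ d →
    ∀ w w' : Fin 3 → V n, WI C Γ I01 d w → WI C Γ I01 d w' → w' 1 = w 1 → w' 2 = w 2 →
    ∀ (φ : V n →ₗ[ℝ] ℝ) (p p' : V n →ₗ[ℝ] V n), Ph C w 0 φ → PrI C w I01 p → PrI C w' I01 p' →
    (∀ x, φ (p' x) = φ x) ∧ (∀ x, φ (p x) = φ x) ∧
    ∀ x, Lf C w x → Lf C w' (p' x) ∧ p (p' x) = x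

/-- **Row LFC** (leaf points are limits of leaf points; uses WIC LFT LFM PHE PHC).

Proof.  Let `φ` (PHE) for `w`, `φ_m` for `x_m`.  WIC: `u_m ∈ BI C (x_m) I01`, `u_m → x` (`LimS`, first part).  `φ_m u_m → φ x
> 0` (PHC, LFM), so for large `m` LFT gives `t_m` with `Lf C (x_m) (u_m + t_m x_m 1)` (put `y_m = x` for the other `m`).
Claim `t_m → 0`.  Let `η > 0`.  `x + η w1` is a unit of `F`
(sum of independent nonunits, STX), so `x + η w1 + w2 ∈ C` (`≥ ε f`), so for large `m` `u_m + η x_m 1 + x_m 2 ∈ C`, and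
the box property gives `u_m + η x_m 1 ∈ closure C`, even `u_m + η x_m 1` is a unit (absorb, box), so `t_m ≤ η`.
`x - η w1 ∉ closure C` (otherwise `x = (x - η w1) + η w1`; as `Ext C x`, `η w1 = c x`, contradiction), `closure C` is closed, so
`u_m - η x_m 1 ∉ closure C` for large `m`; if `t_m ≤ -η` then `u_m - η x_m 1 = (u_m + t_m x_m 1) + (-η - t_m) x_m 1 ∈ closure C`,
contradiction. -/
def LfcStmt : Prop :=
  ∀ (n : ℕ) (C : Set (V n)) (Γ : Subgroup (GL (Fin n) ℝ)) (d : ℕ), H3 C Γ d →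
    ∀ (x : ℕ → Fin 3 → V n) (w : Fin 3 → V n), (∀ m, WI C Γ I01 d (x m)) → WI C Γ I01 d w →
    (∀ i, Tendsto (fun m => x m i) atTop (𝓝 (w i))) → ∀ y, Lf C w y →
    ∃ z : ℕ → V n, Tendsto z atTop (𝓝 y) ∧ ∀ᶠ m in atTop, Lf C (x m) (z m)

/-- **Row LFL** (limits of leaf points; uses WIC).

Proof.  `y ∈ F` (`LimS`, second part), `y ∈ closure C`.  If `y` is a unit of `F`: `y + w2 ∈ C` (`≥ ε f`), so for large `m`
`z_m + x_m 2 ∈ C`, absorb: for `v ∈ BI C (x_m) I01` `M z_m + M x_m 2 - v ∈ closure C`, IBF (3): `M z_m - v ∈ closure C`: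
`z_m` is a unit, contradiction.  `φ y > 0 = φ (c w1)`. -/
def LflStmt : Prop :=
  ∀ (n : ℕ) (C : Set (V n)) (Γ : Subgroup (GL (Fin n) ℝ)) (d : ℕ), H3 C Γ d →
    ∀ (x : ℕ → Fin 3 → V n) (w : Fin 3 → V n), (∀ m, WI C Γ I01 d (x m)) → WI C Γ I01 d w →
    (∀ i, Tendsto (fun m => x m i) atTop (𝓝 (w i))) → ∀ (z : ℕ → V n) (y : V n)
      (φ : V n →ₗ[ℝ] ℝ), (∀ m, Lf C (x m) (z m)) → Tendsto z atTop (𝓝 y) → Ph C w 0 φ →
      0 < φ y → Lf C w y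

end Pool.Agent.KT3
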