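import Pool.Agent.KT3.StmtsA

/-!
# KT3 squad (MP_e54c4c_gt), THEOREM T3: SECTIONS D (Baire category on the leaf) and N (minimal families)

For the tools see the header of `StmtsA.lean` and the rows there.  `F = BI C w I01`; `fS w I02 = w 0 + w 2`
(`fS_pair`), `fS (up w x) I02 = x + w 2`, `fS (up w x) I02ᶜ = w 1`, `fS w I01ᶜ = w 2`.
-/

set_option autoImplicit false

open Matrix Filter Topology

namespace Pool.Agent.KT3

open Pool.Agent.PFS Pool.Agent.PFJ Pool.Agent.NBT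

/-! ## D. The class AD and Lemma D -/

/-- **Row ADI** (invariance of the class `AD`; uses WII LFI LFM).

Proof.  (1) IBF (5) for `up w x` (`IsPES` by LFM) and `{0, 2}`: the span of `x, w 2` is a box of dimension `2`.
(2) `Lf C (r w) x ↔ Lf C w x` (LFI); `up (r w) x` is `up w x` with the vertices `1, 2` rescaled: IBF (4) with
`Function.update r 0 1`.  (3) `x = s • act g x'` with `x' = s⁻¹ • act g⁻¹ x`, `Lf C w x'` (LFI), `up (G w) (G x') = G (up w x')`;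
IBI (3), IMG (dimension).  (4) `Lf C (up w x) y ↔ Lf C w y` (LFM), `up (up w x) y = up w y`
(`Function.update_idem`). -/
def AdiStmt : Prop :=
  ∀ (n : ℕ) (C : Set (V n)) (Γ : Subgroup (GL (Fin n) ℝ)) (d : ℕ), H3 C Γ d →
    ∀ w : Fin 3 → V n, WI C Γ I01 d w → AD C Γ d 2 w ∧ ∀ δ : ℕ, AD C Γ d δ w →
    (∀ r : Fin 3 → ℝ, (∀ i, 0 < r i) → AD C Γ d δ (fun i => r i • w i)) ∧
    (∀ g ∈ Γ, ∀ s : ℝ, 0 < s → AD C Γ d δ (fun i => s • act g (w i))) ∧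
    ∀ x, Lf C w x → AD C Γ d δ (up w x)

/-- **Row ADC** (the class `AD` is closed; uses WIC LFC LFM).

Proof.  `WI` for `w`: WIC.  `Lf C w y`: LFC: `z_m → y`, `Lf C (x_m) (z_m)` for large `m`; boxes `L_m` of `up (x_m) (z_m)`,
`δ ≤ finrank L_m`.  LSC: a subsequence with `LimS`, equal dimensions; IBL for `up (x_m) (z_m) → up w y` (`PES` by LFM):
`IB C (up w y) I02 L'`. -/
def AdcStmt : Prop :=
  ∀ (n : ℕ) (C : Set (V n)) (Γ : Subgroup (GL (Fin n) ℝ)) (d δ : ℕ), H3 C Γ d →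
    ∀ (x : ℕ → Fin 3 → V n) (w : Fin 3 → V n), (∀ m, AD C Γ d δ (x m)) →
    (∀ i, Tendsto (fun m => x m i) atTop (𝓝 (w i))) → ∑ i, w i ∈ C → AD C Γ d δ w

/-- **Row ZPM** (monotonicity of the approximate boxes).

Proof.  `exp (-T') ≤ exp (-T)` for `T ≤ T'`, so `u + exp(-T) w1 = (u + exp(-T') w1) + (nonneg) w1` and
`M (x + w2 + exp(-T) w1) - u = (M' (x + w2 + exp(-T') w1) - u) + nonnegative terms` for `0 ≤ M' ≤ M`; the
conclusion for `ε ≤ ε'`: add `(ε' - ε) (x + w2)`. -/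
def ZpmStmt : Prop :=
  ∀ (n : ℕ) (C : Set (V n)), PCone C → ∀ (w : Fin 3 → V n) (x : V n), x ∈ closure C →
    (∀ i, w i ∈ closure C) → ∀ (δ : ℕ) (ε ε' M M' T T' : ℝ), ε ≤ ε' → 0 ≤ M' → M' ≤ M → T ≤ T' →
    Zp C w δ ε M T x → Zp C w δ ε' M' T' x

/-- **Row ZPP** (large faces have approximate boxes; uses LFM).

Proof.  `B = BI C (up w x) I02`; `x + w 2` is a unit of `B` (FCS 1), `x, w 2 ∈ B` (FCS 2) independent (LIN).
There is `L ≤ B` with `x, w 2 ∈ L`, `finrank L = δ` (`2 ≤ δ ≤ finrank B`: extend `![x, w 2]` to a basis of `B`, or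
`Submodule.exists_smodEq`-free argument: induction on `δ`, adding a vector of `B` outside `L` while
`finrank L < finrank B`).  Suppose the implication fails for every `T = m ∈ ℕ`: `u_m ∈ L`,
`u_m + exp(-m) w1 ∈ closure C`, `M (x + w2 + exp(-m) w1) - u_m ∈ closure C`, `u_m + ε (x + w2) ∉ closure C`.
`0 ≤ u_m + exp(-m) w1 ≤ M (x + w2) + (M + 1) w1`: `u_m` is bounded (`normal`); a subsequence converges to `u ∈ L`,
`u ∈ closure C`.  `ε (x + w2) + u` is a unit of `B` (UNF 1, 3), `u_m - u → 0` in `B`: UOP: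
`ε (x + w2) + u + (u_m - u) ∈ closure C` for large `m`.  Contradiction. -/
def ZppStmt : Prop :=
  ∀ (n : ℕ) (C : Set (V n)) (Γ : Subgroup (GL (Fin n) ℝ)) (d : ℕ), H3 C Γ d →
    ∀ w : Fin 3 → V n, WI C Γ I01 d w → ∀ x, Lf C w x → ∀ δ : ℕ, 2 ≤ δ →
    δ ≤ Module.finrank ℝ (BI C (up w x) I02) → ∀ ε M : ℝ, 0 < ε → 0 < M →
    ∃ T : ℕ, Zp C w δ ε M T x

/-- **Row ZPC** (the set of points with an approximate box is closed; uses LFM).

Proof.  LSC: a subsequence of the spaces `L_m` (dimension `δ`) has `LimS`, limit `L'`, dimension `δ`; `y ∈ L'`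
(`z_m → y`), `w 2 ∈ L'`.  Let `u ∈ L'` satisfy the two conditions, `S = exp(-T) w1`, `f' = y + w2`, `f'_m = z_m + w2`,
`η ∈ (0, 1]`; `u_m → u`, `u_m ∈ L_m`.  `v_m = (1+η)⁻¹ (u_m + η f'_m) ∈ L_m`.  `f' + S ∈ C` (positive combination of
`up w y`).  `v_m + S → (1+η)⁻¹ ((u + S) + η (f' + S)) ∈ C`, and `M (f'_m + S) - v_m → (1+η)⁻¹ ((M (f' + S) - u) +
(M - 1) η f' + M η S) ∈ C` (`M > 1`); `C` is open, so both hold for large `m`, and `v_m + ε f'_m ∈ closure C`.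
`m → ∞`: `(1+η)⁻¹ (u + η f') + ε f' ∈ closure C`; `η → 0`. -/
def ZpcStmt : Prop :=
  ∀ (n : ℕ) (C : Set (V n)) (Γ : Subgroup (GL (Fin n) ℝ)) (d : ℕ), H3 C Γ d →
    ∀ w : Fin 3 → V n, WI C Γ I01 d w → ∀ (z : ℕ → V n) (y : V n), Tendsto z atTop (𝓝 y) →
    Lf C w y → ∀ (δ : ℕ) (ε M T : ℝ), 0 < ε → 1 < M → (∀ m, Zp C w δ ε M T (z m)) →
    Zp C w δ ε M T y

/-- **Row ZPB** (Baire on the leaf; uses ZPM ZPC LFL LFM).

Proof.  `ℓ = {x | Lf C w x ∧ φ x = 1}` is closed (LFL with constant sequence; `φ` is continuous), nonempty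
(`w 0`).  As a closed subset of a finite dimensional space it is a complete metric space, so a Baire space.
For `j, T ∈ ℕ` let `Z_{j,T} = {x ∈ ℓ | Zp C w δ (1/(j+1)) (j+2) T x}`: closed (ZPC, sequentially closed), and
`⋃_T Z_{j,T} = ℓ` (hypothesis).  `dense_iUnion_interior_of_closed`: `⋃_T interior Z_{j,T}` is dense (and open);
`dense_iInter_of_isOpen_nat`: a point `x0` in all of them: for every `j` there are `T` and a ball.  For given `ε, M`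
choose `j` with `1/(j+1) ≤ ε`, `M ≤ j + 2`: ZPM. -/
def ZpbStmt : Prop :=
  ∀ (n : ℕ) (C : Set (V n)) (Γ : Subgroup (GL (Fin n) ℝ)) (d : ℕ), H3 C Γ d →
    ∀ w : Fin 3 → V n, WI C Γ I01 d w → ∀ φ : V n →ₗ[ℝ] ℝ, Ph C w 0 φ → ∀ δ : ℕ,
    (∀ x, Lf C w x → φ x = 1 → ∀ ε M : ℝ, 0 < ε → 0 < M → ∃ T : ℕ, Zp C w δ ε M T x) →
    ∃ x0, Lf C w x0 ∧ φ x0 = 1 ∧ ∀ ε M : ℝ, 0 < ε → 1 < M → ∃ (T : ℕ) (r : ℝ), 0 < r ∧
      ∀ x, Lf C w x → φ x = 1 → ‖x - x0‖ < r → Zp C w δ ε M T x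

/-- **Row LPT** (leaf points which are bounded at the scale `exp (-θ)` converge to the base point;
uses LFM).

Proof.  IBF (3) for the wall: `M' (w0 + exp(-θ_m) w1) - z_m ∈ closure C` (`z_m, w0, w1 ∈ F`, the rest is a multiple of
`w 2`).  `0 ≤ z_m ≤ M' (w0 + w1)` for large `m`: bounded.  Every limit point `y` satisfies `y ∈ closure C`,
`M' w0 - y ∈ closure C`; `w 0` is extreme (`exv`): `y = a w0`, `φ y = 1` (continuity) so `a = 1`.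
So `z_m → w 0` (bounded sequence with a single limit point, `tendsto_of_subseq_tendsto`). -/
def LptStmt : Prop :=
  ∀ (n : ℕ) (C : Set (V n)) (Γ : Subgroup (GL (Fin n) ℝ)) (d : ℕ), H3 C Γ d →
    ∀ w : Fin 3 → V n, WI C Γ I01 d w → ∀ φ : V n →ₗ[ℝ] ℝ, Ph C w 0 φ →
    ∀ (θ : ℕ → ℝ) (z : ℕ → V n) (c M' : ℝ), Tendsto θ atTop atTop →
    (∀ m, Lf C w (z m)) → Tendsto (fun m => φ (z m)) atTop (𝓝 c) → c = 1 →
    (∀ m, M' • (w 0 + Real.exp (-θ m) • w 1 + w 2) - z m ∈ closure C) →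
    Tendsto z atTop (𝓝 (w 0))

/-- **Row ZPL** (the zoom limit at a generic point of the leaf; uses FAY WIC WII LFI LFM LFC PHE PHU PHC
ZPM LPT).

Proof.  Replace `w` by `up w x0` (LFM; same `F`, same leaf, `φ` is the functional since `φ x0 = 1`), so `x0 = w 0`.
`y_m = (w0, exp(-m) w1, w2)`.  FAY (`cpt`), LPS: `G_m y_{θ m} → W`, `θ` strictly monotone, `G_m = s_m act g_m`; `WI` for all
`G_m y` (WII) and for `W` (WIC).  Let `Lf C W y`.  LFC: `z_m → y`, `Lf C (G_m y_{θ m}) z_m` for large `m`; `z_m = G_m z'_m`,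
`Lf C w z'_m` (LFI).  `φ' ` for `W` (PHE), PHC, PHU (3), (4): `φ z'_m = φ_m z_m → φ' y = c > 0` (LFM).
`ŷ_m = z'_m / φ (z'_m)`: `Lf C w ŷ_m`, `φ ŷ_m = 1`.  `M' ∑ W - y ∈ C`, so for large `m`
`M' (w0 + exp(-θ m) w1 + w2) - z'_m ∈ closure C`; LPT (for `ŷ_m`, constant `2 M'/c`): `ŷ_m → w 0`.
So for every `j` there are `T_j`, `m_j` with `Zp C w δ (1/(j+1)) (j+2) T_j ŷ_m` and `T_j + 1 ≤ θ m` for `m ≥ m_j`
(hypothesis on `x0`); choose `j(m) → ∞` with `m ≥ m_{j(m)}` (for instance the largest `j ≤ m` with `m_i ≤ m` for all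
`i ≤ j`; for small `m` nothing is claimed) and the space `L_m` for `j = j(m)`.  LSC: a subsequence with
`LimS (img g_m L_m) L'` (equal dimensions `δ`, IMG).  `y = lim G_m (φ(z'_m) ŷ_m) ∈ L'`, `W 2 = lim G_m w2 ∈ L'`.
Box: `u ∈ L'`, `u + W 1 ∈ closure C`; `u = lim G_m u_m`, `u_m ∈ L_m`.  `ε ∈ (0, 1)`.  `u + W1 + ε (y + W1 + W2) ∈ C`
and `M'' (y + W1 + W2) - u ∈ C` for some `M'' > 0` (absorb, `up W y` is `IsPES`), so for large `m`
`u_m + (1+ε) exp(-θ m) w1 + ε (z'_m + w2) ∈ closure C`, `M'' (z'_m + w2 + exp(-θ m) w1) - u_m ∈ closure C`.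
`v_m = u_m + ε (z'_m + w2) ∈ L_m`; `(1+ε) exp(-θ m) ≤ exp(-T_j)`; `z'_m + w2 ≤ C1 (ŷ_m + w2)`, `C1 = max (c+1) 1`, so for
`j + 2 ≥ (M'' + 1) C1` both conditions of `Zp` hold for `v_m`: `v_m + (1/(j+1)) (ŷ_m + w2) ∈ closure C`.  Apply `G_m`,
`m → ∞` (`G_m ŷ_m → y / c`, `j(m) → ∞`): `u + ε (y + W2) ∈ closure C`; `ε → 0`. -/
def ZplStmt : Prop :=
  ∀ (n : ℕ) (C : Set (V n)) (Γ : Subgroup (GL (Fin n) ℝ)) (d : ℕ), H3 C Γ d →
    ∀ w : Fin 3 → V n, WI C Γ I01 d w → ∀ φ : V n →ₗ[ℝ] ℝ, Ph C w 0 φ → ∀ δ : ℕ,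
    ∀ x0, Lf C w x0 → φ x0 = 1 → (∀ ε M : ℝ, 0 < ε → 1 < M → ∃ (T : ℕ) (r : ℝ), 0 < r ∧
      ∀ x, Lf C w x → φ x = 1 → ‖x - x0‖ < r → Zp C w δ ε M T x) →
    ∃ W : Fin 3 → V n, AD C Γ d δ W

/-- **Row LMD** (Lemma D; uses PHE ZPP ZPB ZPL).

Proof.  `φ` from PHE.  ZPP for all `x` in the leaf; ZPB; ZPL. -/
def LmdStmt : Prop :=
  ∀ (n : ℕ) (C : Set (V n)) (Γ : Subgroup (GL (Fin n) ℝ)) (d : ℕ), H3 C Γ d →
    ∀ w : Fin 3 → V n, WI C Γ I01 d w → ∀ δ : ℕ, 2 ≤ δ →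
    (∀ x, Lf C w x → δ ≤ Module.finrank ℝ (BI C (up w x) I02)) → ∃ W : Fin 3 → V n, AD C Γ d δ W

/-! ## N. Minimal families and Lemma N -/

/-- **Row SMS** (the small vectors form a subspace).

Proof.  Zero: `κ = 1`.  Sum: use `τ/2` for both, add.  Scalar `a`: use `τ/|a|` (`a ≠ 0`), multiply by `|a|`. -/
def SmsStmt : Prop :=
  ∀ (n : ℕ) (C : Set (V n)), PCone C → ∀ e ∈ closure C, ∃ N : Submodule ℝ (V n),
    ∀ y, y ∈ N ↔ Pool.Agent.PCO.Sml C e y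

/-- **Row LSA** (the class `AD` is such a family; uses ADI ADC).

Proof.  `at1 w t` is a rescaling of `w` (`r 1 = exp t`, `r i = 1` otherwise): ADI (2).  `lf`: ADI (4). -/
def LsaStmt : Prop :=
  ∀ (n : ℕ) (C : Set (V n)) (Γ : Subgroup (GL (Fin n) ℝ)) (d δ : ℕ), H3 C Γ d →
    LS C Γ d (AD C Γ d δ)

/-- **Row MNL** (minimal families; adapt MNX, see `Pool/Agent/Helper*_NBT/MNX.lean`; uses FAY WII LFI LFM LFC PHU
PHE PHC).

Proof.  Let `U_j` be an enumeration of a countable basis of open sets of `Fin 3 → V n`.  `A_j T w`: `T w` and for all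
`g ∈ Γ, s > 0, t : ℝ, φ` with `Ph C w 0 φ`, `x` with `Lf C w x`, `φ x = 1`: the tuple
`s • act g ((at1 (up w x) t) i)` is not in `U_j`.  If `LS T` then `LS (A_j T)`: `inv`: leaf points of `G w` are `G x'`
(LFI), `φ_{Gw} (G u) = φ u` (PHU 4), `at1` commutes with `G`; `scl`: `Lf C (at1 w t') ↔ Lf C w` (LFI),
`Ph C (at1 w t') 0 φ` iff `Ph C w 0 φ`, `at1 (up (at1 w t') x) t = at1 (up w x) (t + t')`; `lf`: LFM, and the functional of
`up w y` is `φ` (`φ y = 1`, uniqueness PHU 1), `up (up w y) x = up w x`; `cld`: if `x_m → w` and the tuple of `(g, s, t, x)` at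
`w` is in `U_j`: LFC: `z_m → x` in the leaves of `x_m`, `φ_m z_m → 1` (PHC), `z_m / φ_m z_m → x` are normalised leaf points,
and the tuples converge, so they are in `U_j` for large `m`, contradiction.
`T_0 = X0`, `T_{j+1} = A_j T_j` if this has a member, `T_{j+1} = T_j` otherwise; `X w := ∀ j, T_j w`.  `LS X` is clear.
Nonempty: `x_j ∈ T_j`; FAY (`cpt`), LPS: `G_m x_{θ m} → w`, in every `T_j` (`cld`, `inv`).
Minimality: `X'` `LS`, `X' ⊆ X`, with a member, and `X w`, `¬ X' w`.  `w` is not in the closure of `X'` (`cld`,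
`∑ w ∈ C`), so `w ∈ U_j` with `U_j` disjoint from `X'`; for a member `z` of `X'` all tuples are in `X'`, so `A_j T_j z`;
so `T_{j+1} = A_j T_j` and `A_j T_j w`; with `g = 1, s = 1, t = 0, x = w 0` (`Lf C w (w 0)`, `φ (w 0) = 1`, PHE)
`w ∉ U_j`.  Contradiction. -/
def MnlStmt : Prop :=
  ∀ (n : ℕ) (C : Set (V n)) (Γ : Subgroup (GL (Fin n) ℝ)) (d : ℕ), H3 C Γ d →
    ∀ X0 : (Fin 3 → V n) → Prop, LS C Γ d X0 → (∃ w, X0 w) →
    ∃ X : (Fin 3 → V n) → Prop, LM C Γ d X ∧ ∀ w, X w → X0 w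

/-- **Row SAT** (in a minimal family the lowered leaf of every member is dense; uses FAY LFI LFM LFC PHE
PHU PHC).

Proof.  Let `X' W` be: `X W` and for all `ε > 0` and `T` there are `t ≥ T, x, g, s` as in the conclusion (with `W` for
`w''`).  `LS X'`: `wl` clear; `inv`: for `G' = s' act g'` choose `ε'` by continuity; `scl`: `at1 (G v) t' = G (at1 v t')`,
`at1 (at1 v (-t)) t' = at1 v (-(t - t'))`, continuity; `cld`: `ε/2`.  `lf`: `W ∈ X'`, `Lf C W y`, `φ_W y = 1`.  For `m ∈ ℕ`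
(`ε = 1/(m+1)`, `T = m`) `V_m = G_m (at1 (up w' x_m) (-t_m)) → W`, `V_m ∈ X` (`lf`, `scl`, `inv`).  LFC: `z_m → y`, `Lf C V_m z_m`
for large `m`; `z_m = G_m z'_m`, `Lf C w' z'_m` (LFI, LFM); `φ_{V_m} (G_m u) = φ u` (PHU; `φ x_m = 1`), so `φ z'_m → 1` (PHC);
`ŷ_m = z'_m / φ z'_m`, and `G_m (at1 (up w' ŷ_m) (-t_m)) → up W y`, since `G_m ŷ_m → y` and the other two vertices are
those of `V_m`.
Nonempty: `at1 w' (-m) ∈ X`; FAY (`cpt`) and LPS: `G_m (at1 w' (-θ m)) → W`, `X W` (`cld`), and `W ∈ X'` (`x = w' 0`).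
Minimality of `X`: `X' w''`. -/
def SatStmt : Prop :=
  ∀ (n : ℕ) (C : Set (V n)) (Γ : Subgroup (GL (Fin n) ℝ)) (d : ℕ), H3 C Γ d →
    ∀ X : (Fin 3 → V n) → Prop, LM C Γ d X → ∀ w' w'' : Fin 3 → V n, X w' → X w'' →
    ∀ φ : V n →ₗ[ℝ] ℝ, Ph C w' 0 φ → ∀ ε T : ℝ, 0 < ε →
    ∃ t : ℝ, T ≤ t ∧ ∃ x : V n, Lf C w' x ∧ φ x = 1 ∧ ∃ g ∈ Γ, ∃ s : ℝ, 0 < s ∧
      ∀ i, ‖s • act g ((at1 (up w' x) (-t)) i) - w'' i‖ < ε

/-- **Row TRA** (transitivity of the raising flow; uses FAY LFI LFM LFC PHE PHU PHC LPT SAT).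

Proof.  `at1 w (-m) ∈ X`; FAY (`cpt`), LPS: `V_m = G_m (at1 w (-θ m)) → w' ∈ X`, `θ` strictly monotone.  SAT for `w'`,
`w''`, `ε'/2`, `T = 0`: `t', y', g, s` with `s • act g (at1 (up w' y') (-t'))` within `ε'/2` of `w''`.  LFC: `z_m → y'`,
`Lf C V_m z_m`; normalised (divide by `φ_{V_m} z_m → φ' y' = 1`, PHC) `φ_{V_m} z_m = 1`; `z_m = G_m z'_m`, `Lf C w z'_m`,
`φ z'_m = 1` (PHU 3, 4).  `M' ∑ w' - y' ∈ C`, so for large `m` `M' (w0 + exp(-θ m) w1 + w2) - z'_m ∈ closure C`; LPT: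
`z'_m → w 0`.  `u_m = s • act g (at1 (up V_m z_m) (-t'))` is in `X` and tends to `s • act g (at1 (up w' y') (-t'))`, so
it is within `ε'` of `w''` for large `m`.  `at1 u_m (t' + θ m) = s • act g (G_m (up w z'_m))` (`at1` commutes with the
group), so with `(s s_m)⁻¹`, `(g g_m)⁻¹` it is mapped to `up w z'_m → w`: within `ε` for large `m`;
`t = t' + θ m ≥ T` for large `m`. -/
def TraStmt : Prop :=
  ∀ (n : ℕ) (C : Set (V n)) (Γ : Subgroup (GL (Fin n) ℝ)) (d : ℕ), H3 C Γ d →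
    ∀ X : (Fin 3 → V n) → Prop, LM C Γ d X → ∀ w w'' : Fin 3 → V n, X w → X w'' →
    ∀ ε ε' T : ℝ, 0 < ε → 0 < ε' → ∃ u : Fin 3 → V n, X u ∧ (∀ i, ‖u i - w'' i‖ < ε') ∧
      ∃ t : ℝ, T ≤ t ∧ ∃ g ∈ Γ, ∃ s : ℝ, 0 < s ∧ ∀ i, ‖s • act g ((at1 u t) i) - w i‖ < ε

/-- **Row DEN** (a member with a dense raising orbit; uses TRA).

Proof.  `S = {w | X w}` as a subset of `Fin 3 → V n`: it is closed in the open set `{w | ∑ w ∈ C}` (`cld`), so locally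
closed, so the subtype is locally compact Hausdorff and a Baire space.  Let `w_j` be a dense sequence in `S`
(`TopologicalSpace.exists_dense_seq`, separable, nonempty).  For `j, k, N ∈ ℕ`
`R = {u ∈ S | ∃ t ≥ N, g ∈ Γ, s > 0, ∀ i, ‖s • act g ((at1 u t) i) - w_j i‖ < 1/(k+1)}` is open (for fixed `t, g, s` the
map is continuous in `u`) and dense (TRA with `w = w_j`, `w''` any member).  Countable intersection of open dense
sets: nonempty.  For `w ∈ S`, `ε`: `j` with `w_j` within `ε/2` of `w`, `1/(k+1) < ε/2`, `N ≥ T`. -/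
def DenStmt : Prop :=
  ∀ (n : ℕ) (C : Set (V n)) (Γ : Subgroup (GL (Fin n) ℝ)) (d : ℕ), H3 C Γ d →
    ∀ X : (Fin 3 → V n) → Prop, LM C Γ d X →
    ∃ u : Fin 3 → V n, X u ∧ ∀ w : Fin 3 → V n, X w → ∀ ε T : ℝ, 0 < ε →
      ∃ t : ℝ, T ≤ t ∧ ∃ g ∈ Γ, ∃ s : ℝ, 0 < s ∧ ∀ i, ‖s • act g ((at1 u t) i) - w i‖ < ε

/-- **Row RAI** (limits of the raising orbit have large faces).

Proof.  For `m ∈ ℕ` (`ε = 1/(m+1)`, `T = m`) `t_m ≥ m`, `G_m = s_m act g_m` with `G_m (at1 u t_m) → W`.  `G_m` is bounded on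
vectors: absorb `±x ≤ M ∑ u ≤ M ∑ at1 u t_m` (`t_m ≥ 0`), so `±G_m x ≤ M G_m (∑ at1 u t_m)`, bounded (`normal`).  On a
subsequence `G_m e_j` converges for the basis vectors; `P` linear, `G_m x → P x`.  `P u1 = 0`
(`G_m u1 = exp(-t_m) G_m (exp(t_m) u1)`), `P u0 = W 0`, `P u2 = W 2`, so `P (∑ u) = fS W I02`, `±P x ≤ M fS W I02`:
`P x ∈ BI C W I02` (FCE, `W i ∈ closure C`).  If `P x = 0`: let `x0 ∈ C`, `τ > 0`; choose `δ > 0` with
`τ x0 - δ ∑ u ∈ closure C`; `δ ∑ W ∈ C` and `G_m x → 0`, so for some large `m` (`t_m ≥ 0`)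
`δ G_m (∑ at1 u t_m) ± G_m x ∈ closure C`, so `δ ∑ at1 u t_m ± x ∈ closure C` and
`±x ≤ δ ∑ u + δ exp(t_m) u1 ≤ τ x0 + κ u1`: `Sml C (u 1) x`, so `x ∈ N`.  So `ker P ≤ N`, `range P ≤ BI C W I02`,
rank-nullity (`LinearMap.finrank_range_add_finrank_ker`). -/
def RaiStmt : Prop :=
  ∀ (n : ℕ) (C : Set (V n)) (Γ : Subgroup (GL (Fin n) ℝ)), CC C Γ →
    ∀ u W : Fin 3 → V n, IsPES C Γ u → IsPES C Γ W →
    (∀ ε T : ℝ, 0 < ε → ∃ t : ℝ, T ≤ t ∧ ∃ g ∈ Γ, ∃ s : ℝ, 0 < s ∧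
      ∀ i, ‖s • act g ((at1 u t) i) - W i‖ < ε) →
    ∀ N : Submodule ℝ (V n), (∀ y, y ∈ N ↔ Pool.Agent.PCO.Sml C (u 1) y) →
    n ≤ Module.finrank ℝ N + Module.finrank ℝ (BI C W I02)

/-- **Row LMN** (Lemma N; uses PHE LFI LFM LMD SMS LSA MNL DEN RAI).

Proof.  (a) For `AD C Γ d q w`, `N` the space of SMS for `w 1`: `Lf C w (w 0)`, so there is a box `L` of `up w (w 0) = w`
(`Function.update_eq_self`), `q ≤ finrank L`.  `L ⊓ N = ⊥`: `y ∈ L`, `Sml C (w 1) y`: at the point `f`, for `τ > 0`: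
`κ w1 + τ f ± y ∈ closure C`, `fS w I02ᶜ = w 1`, IBF (3): `τ (w0 + w2) ± y ∈ closure C`; `τ → 0`, salient: `y = 0`.
So `finrank L + finrank N ≤ n` and `finrank N + q ≤ n`.
(b) Suppose that for no member equality holds: `finrank N + q + 1 ≤ n` for all members.  LSA, MNL: a minimal
family `X ⊆ AD C Γ d q`; DEN: `u`.  For every `W` in `X` RAI gives `q + 1 ≤ finrank (BI C W I02)`.  Fix `W` in `X`, `φ` (PHE).
`Lf C W x`: `φ x > 0`, `x' = (φ x)⁻¹ • x` is in the leaf (LFI 3), `φ x' = 1`, `up W x' ∈ X` (`lf`), and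
`BI C (up W x) I02 = BI C (up W x') I02` (rescaling, IBI (1)); so `q + 1 ≤ finrank (BI C (up W x) I02)` for all leaf
points.  LMD: a member of `AD C Γ d (q + 1)`, contradiction. -/
def LmnStmt : Prop :=
  ∀ (n : ℕ) (C : Set (V n)) (Γ : Subgroup (GL (Fin n) ℝ)) (d q : ℕ), H3 C Γ d → 2 ≤ q →
    (∃ w, AD C Γ d q w) → (¬ ∃ w, AD C Γ d (q + 1) w) →
    ∃ (w : Fin 3 → V n) (N : Submodule ℝ (V n)), AD C Γ d q w ∧
      (∀ y, y ∈ N ↔ Pool.Agent.PCO.Sml C (w 1) y) ∧ Module.finrank ℝ N + q = n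

end Pool.Agent.KT3
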