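import Pool.Agent.KT3.StmtsD

/-!
# KT3 squad (MP_e54c4c_gt), THEOREM T3: SECTION M (the class AN, moves of the second pair, mixing)

For the tools see the header of `StmtsA.lean` and the rows there.  `F = BI C w I01`; for `p` with `PJ C N x (w 2) p`
we write `E = LinearMap.range p` (so `y ∈ E ↔ p y = y` by `idm`); `x + w 2 ∈ E`.
-/

set_option autoImplicit false

open Matrix Filter Topology

namespace Pool.Agent.KT3

open Pool.Agent.PFS Pool.Agent.PFJ Pool.Agent.NBT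

/-! ## The class AN -/

/-- **Row ANE** (existence; uses LFM).

Proof.  `w 1 ∈ N`: `Sml C (w 1) (w 1)` (`κ = 1`).  Let `Lf C w x`, `L` a box of `up w x` with `q ≤ finrank L`.
`L ⊓ N = ⊥`: as in LMN (a): `y ∈ L`, `Sml C (w 1) y`, at the point `f' = x + w1 + w2 ∈ C`: `κ w1 + τ f' ± y ∈ closure C`, IBF (3):
`τ (x + w2) ± y ∈ closure C`, `τ → 0`.  So `finrank L + finrank N ≤ n`, `finrank L = q`, `L` and `N` are complementary
(`IsCompl`), `p` = the projection onto `L` along `N` (`Submodule.linearProjOfIsCompl` composed with the inclusion).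
`idm`, `ker`, `fx`, `fv` (`x, w 2 ∈ L`) clear.  `pos`: `y ∈ closure C`, `y = e + m`, `e = p y ∈ L`, `m ∈ N`; for `τ > 0`
`κ w1 + τ f' - m ∈ closure C`; add: `e + κ w1 + τ f' ∈ closure C`, that is `(e + τ (x + w2)) + (κ + τ) w1 ∈ closure C`;
IBF (3): `e + τ (x + w2) ∈ closure C`; `τ → 0`. -/
def AneStmt : Prop :=
  ∀ (n : ℕ) (C : Set (V n)) (Γ : Subgroup (GL (Fin n) ℝ)) (d q : ℕ), H3 C Γ d →
    ∀ (w : Fin 3 → V n) (N : Submodule ℝ (V n)), AD C Γ d q w →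
    (∀ y, y ∈ N ↔ Pool.Agent.PCO.Sml C (w 1) y) → Module.finrank ℝ N + q = n → AN C Γ d q w N

/-- **Row ANI** (invariance; uses WII LFI LFM).

Proof.  (1) rescaling: `Lf C (r w) x ↔ Lf C w x`; `w 1 ∈ N` ⇒ `r 1 • w 1 ∈ N`; the same `p` (`p (r 2 • w 2) = r 2 • w 2`).
(2) `G`: `N ↦ img g N`; `x = G x'`, `Lf C w x'`; `p' = A ∘ p ∘ A⁻¹` with `A = act g` (linear); `p' (s • act g x') =
s • act g x'`.  (3) LFM: `Lf C (up w x) y ↔ Lf C w y`, `(up w x) 1 = w 1`, `(up w x) 2 = w 2`. -/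
def AniStmt : Prop :=
  ∀ (n : ℕ) (C : Set (V n)) (Γ : Subgroup (GL (Fin n) ℝ)) (d q : ℕ), H3 C Γ d →
    ∀ (w : Fin 3 → V n) (N : Submodule ℝ (V n)), AN C Γ d q w N →
    (∀ r : Fin 3 → ℝ, (∀ i, 0 < r i) → AN C Γ d q (fun i => r i • w i) N) ∧
    (∀ g ∈ Γ, ∀ s : ℝ, 0 < s → AN C Γ d q (fun i => s • act g (w i)) (img g N)) ∧
    ∀ x, Lf C w x → AN C Γ d q (up w x) N

/-- **Row PJL** (limits of the projections).

Proof.  `x + v + a ∈ C` and `x_m + v_m + a_m → x + v + a`.  For `e ∈ V` absorb `M (x + v + a) ± e ∈ C`, so for large `m`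
`M (x_m + v_m + a_m) ± e ∈ closure C`; apply `p_m` (`p_m a_m = 0` as `a_m ∈ N_m`): `±p_m e ≤ M (x_m + v_m)`, bounded
(`normal`).  So on a subsequence `p_m e_j` converges for the basis vectors, `p` linear with `p_m y_m → p y` whenever
`y_m → y`.  `idm`, `pos`, `fx`, `fv`: limits.  `ker`: `y ∈ N`: `y = lim y_m`, `y_m ∈ N_m` (`LimS`, first part),
`p_m y_m = 0`.  `p y = 0`: `y - p_m y ∈ N_m` (`p_m (y - p_m y) = 0`), tends to `y`: `y ∈ N` (`LimS`, second part). -/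
def PjlStmt : Prop :=
  ∀ (n : ℕ) (C : Set (V n)), PCone C → ∀ (N : ℕ → Submodule ℝ (V n)) (N' : Submodule ℝ (V n)),
    LimS N N' → ∀ (x v a : ℕ → V n) (x' v' a' : V n), Tendsto x atTop (𝓝 x') →
    Tendsto v atTop (𝓝 v') → Tendsto a atTop (𝓝 a') → x' + v' + a' ∈ C → (∀ m, a m ∈ N m) →
    ∀ p : ℕ → (V n →ₗ[ℝ] V n), (∀ m, PJ C (N m) (x m) (v m) (p m)) →
    ∃ (θ : ℕ → ℕ) (p' : V n →ₗ[ℝ] V n), StrictMono θ ∧ PJ C N' x' v' p' ∧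
      ∀ (y : ℕ → V n) (y' : V n), Tendsto y atTop (𝓝 y') →
        Tendsto (fun m => p (θ m) (y m)) atTop (𝓝 (p' y'))

/-- **Row ANC** (the class is closed; uses WIC LFC LFM PJL).

Proof.  LSC: a subsequence `θ` with `LimS (N (θ m)) N'`, equal dimensions (so `finrank N' + q = n`), `w 1 ∈ N'`
(`LimS`, second part).  `WI` for `w`: WIC.  `Lf C w y`: LFC: `z_m → y` in the leaves (large `m`), `p_m` with
`PJ C (N m) (z_m) (x_m 2) p_m`; `y + w2 + w1 ∈ C` (LFM); PJL. -/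
def AncStmt : Prop :=
  ∀ (n : ℕ) (C : Set (V n)) (Γ : Subgroup (GL (Fin n) ℝ)) (d q : ℕ), H3 C Γ d →
    ∀ (x : ℕ → Fin 3 → V n) (N : ℕ → Submodule ℝ (V n)) (w : Fin 3 → V n),
    (∀ m, AN C Γ d q (x m) (N m)) → (∀ i, Tendsto (fun m => x m i) atTop (𝓝 (w i))) →
    ∑ i, w i ∈ C → ∃ (θ : ℕ → ℕ) (N' : Submodule ℝ (V n)), StrictMono θ ∧
      LimS (fun m => N (θ m)) N' ∧ AN C Γ d q w N'

/-- **Row ANF** (facts; uses PHU LFM LFS).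

Proof.  `E = range p`.  (1) `Sml C (w 1) y`; `p` for `x = w 0` (`Lf C w (w 0)`): at the point `f`: `κ w1 + τ f ± y ∈ closure C`,
apply `p` (`p w1 = 0`): `τ (w0 + w2) ± p y ∈ closure C`; `τ → 0`: `p y = 0`, `y ∈ N`.
(4) `IB C (up w x) I02 E`: `x, w 2 ∈ E`; `u ∈ E`, `u + w1 ∈ closure C` ⇒ `p (u + w1) = u ∈ closure C`.  Dimension: rank-nullity
with `ker p = N`.  `φ ∘ p = φ`: `φ ∘ p ≥ 0`, zero at `w 1` (`p w1 = 0`) and at `w 2` (`φ w2 = 0`); PHU (1) for `up w x` (its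
functional is `(φ x)⁻¹ • φ`, LFM): `φ (p y) = φ (p x) (φ x)⁻¹ φ y = φ y`.
(2) `y ∈ N`: `φ y = φ (p y) = 0`.  (3) `x - x' ∈ F`, `φ (x - x') = 0`: LFS, then (1).
(5) `y - p' y ∈ ker p' = N = ker p`.
(6) `x + w 2` is a unit of `E` (IBF 1). -/
def AnfStmt : Prop :=
  ∀ (n : ℕ) (C : Set (V n)) (Γ : Subgroup (GL (Fin n) ℝ)) (d q : ℕ), H3 C Γ d →
    ∀ (w : Fin 3 → V n) (N : Submodule ℝ (V n)), AN C Γ d q w N →
    ∀ φ : V n →ₗ[ℝ] ℝ, Ph C w 0 φ →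
    (∀ y, Pool.Agent.PCO.Sml C (w 1) y → y ∈ N) ∧
    (∀ y ∈ N, φ y = 0) ∧
    (∀ x x', Lf C w x → Lf C w x' → φ x = φ x' → x - x' ∈ N) ∧
    (∀ x, Lf C w x → ∀ p : V n →ₗ[ℝ] V n, PJ C N x (w 2) p →
      IB C (up w x) I02 (LinearMap.range p) ∧ Module.finrank ℝ (LinearMap.range p) = q ∧
      (∀ y, φ (p y) = φ y) ∧ Unt C (LinearMap.range p) (x + w 2)) ∧
    (∀ (x x' v v' : V n) (p p' : V n →ₗ[ℝ] V n), PJ C N x v p → PJ C N x' v' p' →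
      ∀ y, p (p' y) = p y)

/-- **Row ANY** (moves of the second pair give top triangles; uses STX LFM ANF).

Proof.  `E = range p`, `IB C (up w x) I02 E` (ANF 4).  `y ∈ E` (`p y = y`), nonunit, `φ y > 0`.  `w 2` is a nonunit of `E`
(STX, last part, for `up w x`, `i = 0, j = 2`), `y, w 2` are independent (`φ w2 = 0 < φ y`).  STX (1) for `up w x`, `i = 0`,
`j = 2`: `update (update (up w x) 0 y) 2 (w 2) = up w y` is `IsPES`, `y + w 2` is a unit of `E`, `E` is a box of it. -/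
def AnyStmt : Prop :=
  ∀ (n : ℕ) (C : Set (V n)) (Γ : Subgroup (GL (Fin n) ℝ)) (d q : ℕ), H3 C Γ d →
    ∀ (w : Fin 3 → V n) (N : Submodule ℝ (V n)), AN C Γ d q w N →
    ∀ φ : V n →ₗ[ℝ] ℝ, Ph C w 0 φ → ∀ x, Lf C w x → ∀ p : V n →ₗ[ℝ] V n, PJ C N x (w 2) p →
    ∀ y, p y = y → y ∈ closure C → ¬ Unt C (LinearMap.range p) y → 0 < φ y →
      IsPES C Γ (up w y) ∧ IB C (up w y) I02 (LinearMap.range p) ∧
      Unt C (LinearMap.range p) (y + w 2)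

/-- **Row ANS** (the star points; uses PHU LFM WIF ANF ANY).

Proof.  `φ x = φ y = 1`, `z = p' y ∈ E' = range p'`, `z ∈ closure C`, `φ z = 1` (ANF 4), so `z ≠ 0`.  `x' + w 2` is a unit of `E'`
(ANF 4): `M (x' + w2) - z ∈ closure C`.
`pr`: `pr z ∈ closure C`, `M x' - pr z ∈ closure C` (`pr w2 = 0`, WIF 1; `pr x' = x'`), `Ext C x'` (LFM): `pr z = c x'`;
`φ ∘ pr = φ` (`φ ∘ pr ≥ 0`, zero at `w 1` and `w 2`, one at `w 0`; PHU 1): `c = 1`.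
`z ∈ LamC`: `x' + w 2 ∈ Hull`, `∉ C` (`PES.bd`), `≠ 0`, so `∈ LamC` (CLO, constant sequence), FLM and scaling.
`z + y + w1 ∉ C`: `p z = p (p' y) = p y = y` (ANF 5), `p w1 = 0`, so `p (z + y + w1) = 2 y`; a point of `C` is mapped by
`p` to a unit of `E` (absorb against `e ∈ E`, apply `p`), and `2 y` is not a unit.  FMX for the top simplex `up w y`
(ANY), `l = 2`, `z`: `M (y + w1) - z ∈ closure C`.  So `z ∈ BI C (up w y) I01` (FCS 2). -/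
def AnsStmt : Prop :=
  ∀ (n : ℕ) (C : Set (V n)) (Γ : Subgroup (GL (Fin n) ℝ)) (d q : ℕ), H3 C Γ d →
    ∀ (w : Fin 3 → V n) (N : Submodule ℝ (V n)), AN C Γ d q w N →
    ∀ φ : V n →ₗ[ℝ] ℝ, Ph C w 0 φ → ∀ pr : V n →ₗ[ℝ] V n, PrI C w I01 pr →
    ∀ x x' y : V n, ∀ p p' : V n →ₗ[ℝ] V n, Lf C w x → Lf C w x' → φ x = 1 → φ x' = 1 →
    PJ C N x (w 2) p → PJ C N x' (w 2) p' → p y = y → y ∈ closure C →
    ¬ Unt C (LinearMap.range p) y → φ y = 1 →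
      p' y ∈ closure C ∧ φ (p' y) = 1 ∧ pr (p' y) = x' ∧ p' y ∈ BI C (up w y) I01

/-- **Row ANM** (moves of the second pair stay in the class; uses WIP WIF PHE PHU LFI LFM LFD ANI ANF ANY
ANS).

Proof.  Rescale `x` and `y` so that `φ x = φ y = 1` (`PJ C N (c x) (w 2) p` holds; `up w y` is a rescaling of
`up w (c y)`, ANI (1)).
`F* = BI C (up w y) I01`, `pr` from WIP.  For every leaf point `x'` with `φ x' = 1` and its projection `p'` ANS gives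
`x'* = p' y ∈ F*`, `pr x'* = x'`.  `w 1 ∈ F*` (FCS 2), `pr w1 = w1`.  Every `u ∈ F ∩ closure C` is `s x' + t w1` with `s, t ≥ 0` and
`φ x' = 1` (LFD; rescale), so `u = pr u*` with `u* = s x'* + t w1 ∈ F*`, `u* ∈ closure C`.  `F` is spanned by
`F ∩ closure C` (`u = (u + M f_01) - M f_01`), so `pr` maps `F*` onto `F`; `finrank F* ≤ d` (`maxd`, `up w y` is `IsPES`
by ANY), so `finrank F* = d` and `pr` is injective on `F*`.  Box: `u ∈ F*`, `u + w2 ∈ closure C`: `pr u ∈ F ∩ closure C`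
(`pr w2 = 0`), so `pr u = pr u*` with `u* ∈ F*`, `u* ∈ closure C`, `u = u* ∈ closure C`.  So `WI C Γ I01 d (up w y)`.
Leaf of `up w y`: `Lf C (up w y) z`; `pr z ∈ F ∩ closure C`; the functional of `up w y` is `φ` (PHU 5, `φ y = 1`), so
`φ z > 0` (LFM) and `φ (pr z) = φ z > 0`.  `pr z` is a nonunit of `F`: otherwise for every `v ∈ F*` `M pr z - pr v ∈
closure C`, and `pr (M z - v) = pr (u*)` as above, `M z - v = u* ∈ closure C`: `z` a unit.  `pr z ≠ c w1` (`φ`).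
So `x' = pr z / φ z` is a leaf point of `w` with `φ x' = 1`; `z = φ z • x'*` (injectivity), `x'* = p' y`, `p' x'* = x'*`
(`idm`), so `PJ C N z (w 2) p'` (`p' z = z`).
The last claim: `pr y = x` for `φ x = φ y = 1`: ANS with `x' = x`, `p' = p`. -/
def AnmStmt : Prop :=
  ∀ (n : ℕ) (C : Set (V n)) (Γ : Subgroup (GL (Fin n) ℝ)) (d q : ℕ), H3 C Γ d →
    ∀ (w : Fin 3 → V n) (N : Submodule ℝ (V n)), AN C Γ d q w N →
    ∀ φ : V n →ₗ[ℝ] ℝ, Ph C w 0 φ → ∀ x, Lf C w x → ∀ p : V n →ₗ[ℝ] V n, PJ C N x (w 2) p →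
    ∀ y, p y = y → y ∈ closure C → ¬ Unt C (LinearMap.range p) y → 0 < φ y →
      AN C Γ d q (up w y) N ∧
      ∀ pr : V n →ₗ[ℝ] V n, PrI C w I01 pr → pr y = (φ y * (φ x)⁻¹) • x

/-! ## Mixing -/

/-- **Row CHO** (choice of the partner; uses PHU WIF LFM LFD ANF ANM).

Proof.  `pr z ∈ F ∩ closure C`, `φ (pr z) = φ z > 0` (`φ ∘ pr = φ`, PHU 1, WIF 1): LFD: `pr z = x + b w1`, `b ≥ 0`, `Lf C w x`,
`φ x = φ z`.  `p` for `x` (`AN.prj`).  `e = p z ∈ E ∩ closure C`, `φ e = φ z` (ANF 4).  The set of `β ≥ 0` with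
`e - β w2 ∈ closure C` is closed, contains `0`, is bounded (`β ‖w2‖ ≤ B ‖e‖`, `normal`); `b'` its maximum,
`x0 = e - b' w2`: `p x0 = x0`, `φ x0 = φ z`, and `x0` is a nonunit of `E` (a unit absorbs `w2`: `x0 - ε w2 ∈ closure C`).
ANM: `AN (up w x0) N` and `pr x0 = (φ x0 / φ x) x = x`. -/
def ChoStmt : Prop :=
  ∀ (n : ℕ) (C : Set (V n)) (Γ : Subgroup (GL (Fin n) ℝ)) (d q : ℕ), H3 C Γ d →
    ∀ (w : Fin 3 → V n) (N : Submodule ℝ (V n)), AN C Γ d q w N →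
    ∀ (φ : V n →ₗ[ℝ] ℝ) (pr : V n →ₗ[ℝ] V n), Ph C w 0 φ → PrI C w I01 pr →
    ∀ z ∈ closure C, 0 < φ z → ∃ (p : V n →ₗ[ℝ] V n) (x x0 : V n) (b b' : ℝ),
      CH C w N φ pr p z x x0 b b' ∧ AN C Γ d q (up w x0) N

/-- **Row CLN** (the partner is close; uses WIC WIQ PHC LFM PJL).

Proof.  `tendsto_of_subseq_tendsto`: given a subsequence, find a further one.  `pr_m z_m → pr (w 0) = w 0` (WIQ, `idB`).
`0 ≤ b_m (x_m 1) ≤ pr_m z_m`, bounded, `x_m 1 → w1 ≠ 0`: `b_m → b ≥ 0` (subsequence) and `ξ_m = pr_m z_m - b_m x_m 1 →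
w0 - b w1 ∈ closure C`, so `b = 0` (NNG) and `ξ_m → w 0` (here `ξ_m` is the leaf point `x` of `CH`).
`w0 + w2 + w1 ∈ C`: PJL (after LSC for `N_m`): `p_m → p'`, `PJ C N' (w 0) (w 2) p'`; `p_m z_m → p' (w 0) = w 0`.  `0 ≤ b'_m x_m 2 ≤ p_m z_m`: the same
argument: `b'_m → 0` and `x0_m = p_m z_m - b'_m x_m 2 → w 0`. -/
def ClnStmt : Prop :=
  ∀ (n : ℕ) (C : Set (V n)) (Γ : Subgroup (GL (Fin n) ℝ)) (d q : ℕ), H3 C Γ d →
    ∀ (x : ℕ → Fin 3 → V n) (N : ℕ → Submodule ℝ (V n)) (w : Fin 3 → V n),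
    (∀ m, AN C Γ d q (x m) (N m)) → (∀ i, Tendsto (fun m => x m i) atTop (𝓝 (w i))) →
    ∑ i, w i ∈ C → ∀ (φ : ℕ → (V n →ₗ[ℝ] ℝ)) (pr p : ℕ → (V n →ₗ[ℝ] V n)) (z ξ x0 : ℕ → V n)
      (b b' : ℕ → ℝ), (∀ m, Ph C (x m) 0 (φ m)) → (∀ m, PrI C (x m) I01 (pr m)) →
      (∀ m, z m ∈ closure C) → Tendsto z atTop (𝓝 (w 0)) →
      (∀ m, CH C (x m) (N m) (φ m) (pr m) (p m) (z m) (ξ m) (x0 m) (b m) (b' m)) →
      Tendsto x0 atTop (𝓝 (w 0))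

/-- **Row STP** (stopping time; pure cone geometry).

Proof.  `T = {t ≥ 0 | (x0 + exp(-t) r) - 4 u ∈ closure C ∧ (x0 + exp(-t) r) + 4 u ∈ closure C}` is closed, contains `0`.
It is bounded: otherwise `t_m → ∞` and `x0 ± 4 u ∈ closure C`; then `x0 + u = (3/4) x0 + (1/4) (x0 + 4 u) ∈ closure C` and
`2 x0 - (x0 + u) = (3/4) x0 + (1/4)(x0 - 4 u) ∈ closure C`, `Ext C x0`: `x0 + u = c x0`, `u = (c - 1) x0`, `φ u = 0`,
`φ x0 = 1`: `c = 1`, `u = 0`, excluded.  `t` = the maximum; for `t' = t + log 2` the condition fails. -/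
def StpStmt : Prop :=
  ∀ (n : ℕ) (C : Set (V n)), PCone C → ∀ (x0 r u : V n) (φ : V n →ₗ[ℝ] ℝ), x0 ∈ closure C →
    r ∈ closure C → Ext C x0 → φ x0 = 1 → φ u = 0 → u ≠ 0 →
    x0 + r - (4 : ℝ) • u ∈ closure C → x0 + r + (4 : ℝ) • u ∈ closure C →
    ∃ t : ℝ, 0 ≤ t ∧ x0 + Real.exp (-t) • r - (4 : ℝ) • u ∈ closure C ∧
      x0 + Real.exp (-t) • r + (4 : ℝ) • u ∈ closure C ∧
      ¬ (x0 + Real.exp (-(t + Real.log 2)) • r - (4 : ℝ) • u ∈ closure C ∧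
        x0 + Real.exp (-(t + Real.log 2)) • r + (4 : ℝ) • u ∈ closure C)

/-- **Row SEP** (a limit pair; uses FAY WII WIP WIF WIQ PHE PHU PHC LFI LFM ANI ANC ANF CHO CLN STP PJL).

Proof.  `φ_m` (PHE), `pr_m` (WIP) for `x_m`.  For large `m` `φ_m (z_m 0) > 0` (PHC: `→ φ (w 0) = 1`); CHO for `z = z_m 0`:
`p_m, ξ_m, x0_m, b_m, b'_m`; CLN (replace the finitely many bad `m`): `x0_m → w 0`.  Rescale: `ζ_m = z_m 0 / φ_m (z_m 0)`, `χ_m =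
x0_m / φ_m(z_m 0)`: `φ_m ζ_m = φ_m χ_m = 1`, both tend to `w 0`; `ζ_m ≠ χ_m` (otherwise `up (x_m) (z_m 0)` is a rescaling of
`up (x_m) χ_m`, in the class by ANI).  Let `u_m = ζ_m - χ_m → 0`, `r_m = x_m 1 + x_m 2`.  `Ext C χ_m` (`exv` for
`up (x_m) χ_m`).  For large `m` `χ_m + r_m ± 4 u_m ∈ closure C` (the limit is `f(w) ∈ C`).  STP: `t_m ≥ 0`.
`y_m = (exp t_m • χ_m, x_m 1, x_m 2) ∈ AN` (with `N_m`); FAY (`cpt`), LPS: `G_m y_m → W` on a subsequence; ANI, ANC: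
`AN W N'`, `LimS (img g_m N_m) N'` (further subsequence).  `Y = lim G_m (exp t_m • ζ_m)` exists on a subsequence:
`±4 exp(t_m) u_m ≤ exp(t_m) χ_m + r_m`, so `±4 G_m exp(t_m) u_m ≤ G_m ∑ y_m`, bounded; limit `U`, `±4 U ≤ ∑ W`; `Y = W 0 + U`.
`U ≠ 0`: otherwise for large `m` `G_m ∑ y_m ± 8 G_m exp(t_m) u_m ∈ closure C`, so `χ_m + exp(-t_m) r_m ± 8 u_m ∈ closure C`,
and `2 χ_m + exp(-t_m) r_m ± 8 u_m ∈ closure C`, so (divide by 2) `χ_m + exp(-(t_m + log 2)) r_m ± 4 u_m ∈ closure C`,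
excluded by STP.
`z'_m = (exp t_m • ζ_m, z_m 1, z_m 2) ∈ AN` (rescaling); `G_m z'_m → (Y, W 1, W 2)`: for `i = 1, 2` `z_m i - x_m i → 0`, so for every
`η > 0` and large `m` `±(z_m i - x_m i) ≤ η (χ_m + r_m) ≤ η ∑ y_m` (`t_m ≥ 0`; the first sum tends to `f(w) ∈ C`), so
`G_m (z_m i - x_m i) → 0` (`normal`).  `Y + W1 + W2 ∈ C`: `4 (Y + W1 + W2) - ∑ W = (4 U + ∑ W) + 2 (W 0 + W1 + W2) ∈ C`.
ANC: `AN (up W Y)` for some `N''`.
`pr`: `pr_m z_m0 = ξ_m + b_m x_m 1`, `pr_m x0_m = ξ_m`, so `ζ_m - χ_m - β_m x_m 1 ∈ ker pr_m`, `β_m = b_m / φ_m (z_m 0) ≥ 0`;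
`pr'_m` = the projection of `G_m y_m`, WIF (5), (6), (4): it has the kernel `G_m ker pr_m` (`ker pr_m = Sml C (x_m 2)` is the same
for `y_m`).  So `pr'_m (G_m exp(t_m) u_m) = exp(t_m) β_m G_m x_m 1`; the left side converges to `pr' U` (WIQ), `G_m x_m 1 → W 1 ≠ 0`,
so `exp(t_m) β_m → b ≥ 0` and `pr' (Y - W 0 - b W 1) = 0`, that is `Sml C (W 2) (Y - W 0 - b • W 1)`.
`pn`: `p_m (z_m 0) = x0_m + b'_m x_m 2`, `p_m x0_m = x0_m`: `u_m - β'_m x_m 2 ∈ N_m`, `β'_m = b'_m / φ_m (z_m 0)`.  Take projections `P_m`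
for `χ_m` (`AN (up x_m χ_m) N_m`, leaf point `χ_m`), transported by `G_m`: `P'_m` with `PJ C (img g_m N_m) (G_m exp(t_m) χ_m) (G_m x_m 2) P'_m`,
PJL: `P'_m → P'`; `P'_m (G_m exp(t_m) u_m) = exp(t_m) β'_m G_m x_m 2` converges, so `exp(t_m) β'_m → b' ≥ 0` and
`G_m (exp(t_m) u_m - exp(t_m) β'_m x_m 2) ∈ img g_m N_m` tends to `U - b' W 2 ∈ N'` (`LimS`). -/
def SepStmt : Prop :=
  ∀ (n : ℕ) (C : Set (V n)) (Γ : Subgroup (GL (Fin n) ℝ)) (d q : ℕ), H3 C Γ d →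
    ∀ (x z : ℕ → Fin 3 → V n) (N N' : ℕ → Submodule ℝ (V n)) (w : Fin 3 → V n),
    (∀ m, AN C Γ d q (x m) (N m)) → (∀ m, AN C Γ d q (z m) (N' m)) →
    (∀ i, Tendsto (fun m => x m i) atTop (𝓝 (w i))) →
    (∀ i, Tendsto (fun m => z m i) atTop (𝓝 (w i))) → ∑ i, w i ∈ C →
    (∀ m, ¬ ∃ N'' : Submodule ℝ (V n), AN C Γ d q (up (x m) (z m 0)) N'') →
    ∃ (W : Fin 3 → V n) (N'' : Submodule ℝ (V n)) (y : V n) (b b' : ℝ), PR C Γ d q W N'' y b b'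

/-- **Row PRA** (the first coordinate of a limit pair vanishes; uses WIP WIF LFO LFM PHE PHU).

Proof.  `pr` (WIP), `ker pr = Sml C (w 2)` (`fS w I01ᶜ = w 2`).  `pr y = pr (w 0) + b pr (w 1) = w0 + b w1`.  `φ y = 1`: `φ` vanishes on
`Sml C (w 2)` (`|φ u| ≤ τ φ x0` since `φ w2 = 0`) so `φ y = φ w0 + b φ w1 = 1`.  LFO with the roles exchanged (`w' = up w y` and `w`):
`y` is in the leaf of `up w y` (LFM), so `pr y` is in the leaf of `w`, a nonunit of `F`.  If `b > 0`: `w0 + b w1` is a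
unit (UNF: `≥ min(1,b) (w0 + w1)`), contradiction. -/
def PraStmt : Prop :=
  ∀ (n : ℕ) (C : Set (V n)) (Γ : Subgroup (GL (Fin n) ℝ)) (d q : ℕ), H3 C Γ d →
    ∀ (w : Fin 3 → V n) (N : Submodule ℝ (V n)) (y : V n) (b b' : ℝ), PR C Γ d q w N y b b' →
    b = 0 ∧ (∀ φ : V n →ₗ[ℝ] ℝ, Ph C w 0 φ → φ y = 1) ∧
      ∀ pr : V n →ₗ[ℝ] V n, PrI C w I01 pr → pr y = w 0

/-- **Row PRB** (the second coordinate of a limit pair is positive; uses WIP WIF LFM ANF PRA).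

Proof.  Suppose `b' = 0`.  `p` for the leaf point `w 0`, `PJ C N (w 0) (w 2) p`: `y - w0 ∈ N`, so `p y = w0`.
`y + w0 + w1 ∉ C`: `p` of it is `2 w0`, and a point of `C` is mapped to a unit of `range p`, `w2 ≤ M 2 w0` contradicts NNG.
`y ∈ LamC` (`IsPES (up w y)`).  FMX (`w`, `l = 2`): `M (w0 + w1) - y ∈ closure C`, so `y ∈ F` (FCS 2), `y = pr y = w 0` (`idB`,
PRA), contradicting `ne`. -/
def PrbStmt : Prop :=
  ∀ (n : ℕ) (C : Set (V n)) (Γ : Subgroup (GL (Fin n) ℝ)) (d q : ℕ), H3 C Γ d →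
    ∀ (w : Fin 3 → V n) (N : Submodule ℝ (V n)) (y : V n) (b b' : ℝ), PR C Γ d q w N y b b' →
    0 < b'

/-- **Row PRC** (all faces of the second pair along the leaf are large; uses WIP WIF LFI LFM LFO LFS PHE PHU
ANF PRA PRB).

Proof.  `φ` (PHE), `pr`, `pr'` (WIP) for `w` and `w' = up w y`.  Let `x` be a leaf point; rescale to `φ x = 1` (`BI C (up w (c x)) I02 =
BI C (up w x) I02` by IBI (1), LFI (3)).  `x' = pr' x`: LFO: `Lf C w' x'`, `pr x' = x`, `φ x' = φ x = 1`.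
`x' ∈ LamC`, `Ext C x'` (LFM for `w'`), `x` is extreme.  `x' + x + w2 ∉ C`: `pr` of it is `2 x`, not a unit of `F` (WIF 2, UNF).
FMX (`up w x`, `l = 1`): `M (x + w2) - x' ∈ closure C`: `x' ∈ B := BI C (up w x) I02` (FCS 2).
`p_x` with `PJ C N x (w 2) p_x`, `E = range p_x`, `IB C (up w x) I02 E`, `finrank E = q` (ANF 4), `E ≤ B` (IBF 2).
`x' - y ∈ N`: `x', y` are leaf points of `w'` (LFM), `φ x' = 1 = φ y` (PRA), the functional of `w'` is `φ` (PHU 5): LFS for `w'`: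
`Sml C (w' 1) (x' - y)`, `w' 1 = w 1`, ANF (1) for `w`.  `x - w0 ∈ N` (ANF 3).  `y - w0 - b' w2 ∈ N` (`PR`).  So
`x' - x - b' w2 ∈ N`, `p_x x' = x + b' w2`.  If `x' ∈ E`: `x' = x + b' w2` with `b' > 0` (PRB): `x' - x ∈ closure C`, so
`x = c x'` (`Ext C x'`), and `b' w2 = (1 - c) x'`; `φ`: `1 = φ x = c`, so `w2 = 0`, contradiction (LIN).  So `x' ∈ B`, `x' ∉ E`,
`finrank B ≥ q + 1`. -/
def PrcStmt : Prop :=
  ∀ (n : ℕ) (C : Set (V n)) (Γ : Subgroup (GL (Fin n) ℝ)) (d q : ℕ), H3 C Γ d →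
    ∀ (w : Fin 3 → V n) (N : Submodule ℝ (V n)) (y : V n) (b b' : ℝ), PR C Γ d q w N y b b' →
    ∀ x, Lf C w x → q + 1 ≤ Module.finrank ℝ (BI C (up w x) I02)

/-- **Row MIX** (mixing; uses LMD SEP PRC).

Proof.  Suppose no `ε` works: for every `m` (`ε = 1/(m+1)`) `x_m, z_m, N_m, N'_m` within `ε` of `w`, with
`up (x_m) (z_m 0)` not in the class.  SEP: a limit pair at `W`; PRC; LMD with `δ = q + 1` for `W` (`AN.wl`):
a member of `AD C Γ d (q + 1)`.  Contradiction. -/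
def MixStmt : Prop :=
  ∀ (n : ℕ) (C : Set (V n)) (Γ : Subgroup (GL (Fin n) ℝ)) (d q : ℕ), H3 C Γ d → 2 ≤ q →
    (¬ ∃ w, AD C Γ d (q + 1) w) → ∀ w : Fin 3 → V n, ∑ i, w i ∈ C →
    ∃ ε : ℝ, 0 < ε ∧ ∀ (x z : Fin 3 → V n) (N N' : Submodule ℝ (V n)), AN C Γ d q x N →
      AN C Γ d q z N' → (∀ i, ‖x i - w i‖ < ε ∧ ‖z i - w i‖ < ε) →
      ∃ N'' : Submodule ℝ (V n), AN C Γ d q (up x (z 0)) N''

end Pool.Agent.KT3
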